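import Mathlib

/-!
De Morgan formulas, the least number of leaves of a function, counting and balancing.
-/

namespace Pool.Agent.MP_6b3410_lc.H19

open Classical Finset

/-- formulas with constants, literals, binary AND (`o = true`) and binary OR (`o = false`) -/
inductive Fm (V : Type) : Type
  | const (b : Bool) : Fm V
  | lit (v : V) (b : Bool) : Fm V
  | node (o : Bool) (φ ψ : Fm V) : Fm V

/-- AND for `o = true`, OR for `o = false` -/
def gate (o a b : Bool) : Bool := if o = true then (a && b) else (a || b)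

namespace Fm

variable {V W : Type}

def eval : Fm V → (V → Bool) → Bool
  | const b, _ => b
  | lit v b, x => x v == b
  | node o φ ψ, x => gate o (φ.eval x) (ψ.eval x)

def size : Fm V → ℕ
  | const _ => 0
  | lit _ _ => 1
  | node _ φ ψ => φ.size + ψ.size

def depth : Fm V → ℕ
  | const _ => 0
  | lit _ _ => 0
  | node _ φ ψ => max φ.depth ψ.depth + 1

def occ : Fm V → V → Prop
  | const _, _ => False
  | lit v _, u => v = u
  | node _ φ ψ, u => φ.occ u ∨ ψ.occ u

def neg : Fm V → Fm V
  | const b => const (!b)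
  | lit v b => lit v (!b)
  | node o φ ψ => node (!o) φ.neg ψ.neg

/-- substitution of constants and literals -/
def proj (σ : V → Bool ⊕ W × Bool) : Fm V → Fm W
  | const b => const b
  | lit v b => Sum.elim (fun c => const (c == b)) (fun p => lit p.1 (p.2 == b)) (σ v)
  | node o φ ψ => node o (φ.proj σ) (ψ.proj σ)

/-- number of leaves whose variable satisfies `P` -/
noncomputable def cnt (P : V → Prop) : Fm V → ℕ
  | const _ => 0
  | lit v _ => if P v then 1 else 0
  | node _ φ ψ => φ.cnt P + ψ.cnt P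

lemma eval_neg (φ : Fm V) (x : V → Bool) : φ.neg.eval x = !φ.eval x := by
  induction φ with
  | const b => rfl
  | lit v b => simp only [neg, eval]; cases x v <;> cases b <;> rfl
  | node o φ ψ ih1 ih2 =>
    simp only [neg, eval, ih1, ih2]
    cases o <;> cases φ.eval x <;> cases ψ.eval x <;> rfl

lemma size_neg (φ : Fm V) : φ.neg.size = φ.size := by
  induction φ with
  | const b => rfl
  | lit v b => rfl
  | node o φ ψ ih1 ih2 => simp only [neg, size, ih1, ih2]

/-- the assignment induced by a substitution -/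
def pull (σ : V → Bool ⊕ W × Bool) (y : W → Bool) : V → Bool :=
  fun v => Sum.elim id (fun p => y p.1 == p.2) (σ v)

lemma eval_proj (σ : V → Bool ⊕ W × Bool) (φ : Fm V) (y : W → Bool) :
    (φ.proj σ).eval y = φ.eval (pull σ y) := by
  induction φ with
  | const b => rfl
  | lit v b =>
    simp only [proj, eval, pull]
    rcases σ v with c | ⟨w, c⟩
    · rfl
    · simp only [Sum.elim_inr, eval]
      cases y w <;> cases c <;> cases b <;> rfl
  | node o φ ψ ih1 ih2 => simp only [proj, eval, ih1, ih2]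

lemma size_proj_le (σ : V → Bool ⊕ W × Bool) (P : V → Prop) (hP : ∀ v p, σ v = Sum.inr p → P v)
    (φ : Fm V) : (φ.proj σ).size ≤ φ.cnt P := by
  induction φ with
  | const b => exact le_rfl
  | lit v b =>
    simp only [proj, cnt]
    rcases h : σ v with c | p
    · exact Nat.zero_le _
    · rw [if_pos (hP v p h)]; exact le_rfl
  | node o φ ψ ih1 ih2 => exact Nat.add_le_add ih1 ih2

lemma cnt_le (P : V → Prop) (φ : Fm V) : φ.cnt P ≤ φ.size := by
  induction φ with
  | const b => exact le_rfl
  | lit v b => simp only [cnt, size]; split_ifs <;> omega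
  | node o φ ψ ih1 ih2 => exact Nat.add_le_add ih1 ih2

lemma size_proj (σ : V → Bool ⊕ W × Bool) (φ : Fm V) : (φ.proj σ).size ≤ φ.size :=
  (size_proj_le σ (fun _ => True) (fun _ _ _ => trivial) φ).trans (cnt_le _ _)

lemma depth_proj (σ : V → Bool ⊕ W × Bool) (φ : Fm V) : (φ.proj σ).depth = φ.depth := by
  induction φ with
  | const b => rfl
  | lit v b =>
    simp only [proj]
    rcases σ v with c | p <;> rfl
  | node o φ ψ ih1 ih2 => simp only [proj, depth, ih1, ih2]

lemma occ_proj (σ : V → Bool ⊕ W × Bool) (φ : Fm V) (w : W) (h : (φ.proj σ).occ w) :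
    ∃ v b, φ.occ v ∧ σ v = Sum.inr (w, b) := by
  induction φ with
  | const b => exact h.elim
  | lit v b =>
    simp only [proj] at h
    rcases h' : σ v with c | ⟨w', c⟩ <;> rw [h'] at h
    · exact h.elim
    · exact ⟨v, c, rfl, by rw [h', show w' = w from h]⟩
  | node o φ ψ ih1 ih2 =>
    rcases h with h | h
    · obtain ⟨v, b, h1, h2⟩ := ih1 h
      exact ⟨v, b, Or.inl h1, h2⟩
    · obtain ⟨v, b, h1, h2⟩ := ih2 h
      exact ⟨v, b, Or.inr h1, h2⟩

lemma eval_congr (φ : Fm V) {x y : V → Bool} (h : ∀ v, φ.occ v → x v = y v) :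
    φ.eval x = φ.eval y := by
  induction φ with
  | const b => rfl
  | lit v b => simp only [eval, h v rfl]
  | node o φ ψ ih1 ih2 =>
    simp only [eval, ih1 fun v hv => h v (Or.inl hv), ih2 fun v hv => h v (Or.inr hv)]

end Fm

open Fm

variable {V W : Type}

lemma exists_fm [Fintype V] (f : (V → Bool) → Bool) : ∃ φ : Fm V, φ.eval = f := by
  have key : ∀ S : Finset V, ∀ f : (V → Bool) → Bool,
      (∀ x y, (∀ v ∈ S, x v = y v) → f x = f y) → ∃ φ : Fm V, φ.eval = f := by
    intro S
    induction S using Finset.induction_on with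
    | empty =>
      intro f hf
      exact ⟨const (f fun _ => false), funext fun x => hf _ _ (by simp)⟩
    | insert v S hv ih =>
      intro f hf
      have h : ∀ c, ∃ φ : Fm V, φ.eval = fun x => f (Function.update x v c) := by
        intro c
        refine ih _ fun x y hxy => hf _ _ fun u hu => ?_
        by_cases huv : u = v
        · simp [huv]
        · simp only [Function.update_of_ne huv]
          exact hxy u ((Finset.mem_insert.1 hu).resolve_left huv)
      obtain ⟨φ1, h1⟩ := h true
      obtain ⟨φ0, h0⟩ := h false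
      refine ⟨node false (node true (lit v true) φ1) (node true (lit v false) φ0), funext fun x => ?_⟩
      simp only [eval, h1, h0, gate]
      have e := Function.update_eq_self v x
      cases hx : x v <;> rw [hx] at e <;> simp [e]
  exact key Finset.univ f fun x y h => by rw [funext fun v => h v (Finset.mem_univ v)]

/-- the least number of leaves of a formula for `f` -/
noncomputable def L (f : (V → Bool) → Bool) : ℕ := sInf {s | ∃ φ : Fm V, φ.eval = f ∧ φ.size = s}

lemma L_le (φ : Fm V) : L φ.eval ≤ φ.size := Nat.sInf_le ⟨φ, rfl, rfl⟩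

lemma exists_opt [Fintype V] (f : (V → Bool) → Bool) : ∃ φ : Fm V, φ.eval = f ∧ φ.size = L f := by
  obtain ⟨φ, h⟩ := exists_fm f
  exact Nat.sInf_mem (s := {s | ∃ φ : Fm V, φ.eval = f ∧ φ.size = s}) ⟨_, φ, h, rfl⟩

lemma L_gate [Fintype V] (o : Bool) (f g : (V → Bool) → Bool) :
    L (fun x => gate o (f x) (g x)) ≤ L f + L g := by
  obtain ⟨φ, rfl, h1⟩ := exists_opt f
  obtain ⟨ψ, rfl, h2⟩ := exists_opt g
  rw [← h1, ← h2]
  exact L_le (node o φ ψ)

lemma L_not [Fintype V] (f : (V → Bool) → Bool) : L (fun x => !f x) ≤ L f := by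
  obtain ⟨φ, rfl, h1⟩ := exists_opt f
  rw [← h1, ← size_neg, ← funext φ.eval_neg]
  exact L_le _

lemma L_pull [Fintype V] (σ : V → Bool ⊕ W × Bool) (f : (V → Bool) → Bool) :
    L (fun y => f (pull σ y)) ≤ L f := by
  obtain ⟨φ, rfl, h1⟩ := exists_opt f
  rw [← h1, ← funext (φ.eval_proj σ)]
  exact (L_le _).trans (size_proj _ _)

lemma L_const (b : Bool) : L (fun _ : V → Bool => b) = 0 :=
  Nat.le_zero.1 (L_le (const b))

lemma L_lit (v : V) (b : Bool) : L (fun x : V → Bool => x v == b) ≤ 1 := L_le (lit v b)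

/-- constant functions -/
def IsC (f : (V → Bool) → Bool) : Prop := ∃ b, f = fun _ => b

/-- literals -/
def IsLit (f : (V → Bool) → Bool) (v : V) (b : Bool) : Prop := f = fun x => x v == b

lemma decomp_fm (φ : Fm V) : IsC φ.eval ∨ (1 ≤ φ.size ∧ ∃ v b, IsLit φ.eval v b) ∨
    ∃ o, ∃ φ1 φ2 : Fm V, φ.eval = (node o φ1 φ2).eval ∧ ¬ IsC φ1.eval ∧ ¬ IsC φ2.eval ∧
      φ1.size + φ2.size ≤ φ.size := by
  induction φ with
  | const b => exact Or.inl ⟨b, rfl⟩
  | lit v b => exact Or.inr (Or.inl ⟨le_rfl, v, b, rfl⟩)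
  | node o φ ψ ih1 ih2 =>
    by_cases h1 : IsC φ.eval
    · obtain ⟨b, hb⟩ := h1
      by_cases hbo : b = o
      · have e : (node o φ ψ).eval = ψ.eval := by
          funext x
          simp only [eval, hb, hbo, gate]
          cases o <;> simp
        rw [e]
        rcases ih2 with h | ⟨h, h'⟩ | ⟨o', φ1, φ2, h, h', h'', h3⟩
        · exact Or.inl h
        · exact Or.inr (Or.inl ⟨by simp only [size]; omega, h'⟩)
        · exact Or.inr (Or.inr ⟨o', φ1, φ2, h, h', h'', by simp only [size]; omega⟩)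
      · refine Or.inl ⟨b, funext fun x => ?_⟩
        simp only [eval, hb, gate]
        revert hbo
        cases o <;> cases b <;> simp
    by_cases h2 : IsC ψ.eval
    · obtain ⟨b, hb⟩ := h2
      by_cases hbo : b = o
      · have e : (node o φ ψ).eval = φ.eval := by
          funext x
          simp only [eval, hb, hbo, gate]
          cases o <;> simp
        rw [e]
        rcases ih1 with h | ⟨h, h'⟩ | ⟨o', φ1, φ2, h, h', h'', h3⟩
        · exact Or.inl h
        · exact Or.inr (Or.inl ⟨by simp only [size]; omega, h'⟩)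
        · exact Or.inr (Or.inr ⟨o', φ1, φ2, h, h', h'', by simp only [size]; omega⟩)
      · refine Or.inl ⟨b, funext fun x => ?_⟩
        simp only [eval, hb, gate]
        revert hbo
        cases o <;> cases b <;> simp
    · exact Or.inr (Or.inr ⟨o, φ, ψ, rfl, h1, h2, le_rfl⟩)

lemma size_pos (φ : Fm V) (h : ¬ IsC φ.eval) : 1 ≤ φ.size := by
  induction φ with
  | const b => exact absurd ⟨b, rfl⟩ h
  | lit v b => exact le_rfl
  | node o φ ψ ih1 ih2 =>
    by_contra hcon
    simp only [size] at hcon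
    have h1 : IsC φ.eval := by by_contra h'; have := ih1 h'; omega
    have h2 : IsC ψ.eval := by by_contra h'; have := ih2 h'; omega
    obtain ⟨b1, h1⟩ := h1
    obtain ⟨b2, h2⟩ := h2
    exact h ⟨gate o b1 b2, funext fun x => by simp only [eval, h1, h2]⟩

lemma L_pos [Fintype V] {f : (V → Bool) → Bool} (h : ¬ IsC f) : 1 ≤ L f := by
  obtain ⟨φ, rfl, h1⟩ := exists_opt f
  rw [← h1]
  exact size_pos φ h

lemma decomp [Fintype V] (f : (V → Bool) → Bool) : IsC f ∨ (∃ v b, IsLit f v b) ∨
    ∃ o g h, (f = fun x => gate o (g x) (h x)) ∧ 1 ≤ L g ∧ 1 ≤ L h ∧ L g + L h ≤ L f := by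
  obtain ⟨φ, rfl, h1⟩ := exists_opt f
  rcases decomp_fm φ with h | ⟨-, h⟩ | ⟨o, φ1, φ2, h, h', h'', h3⟩
  · exact Or.inl h
  · exact Or.inr (Or.inl h)
  · refine Or.inr (Or.inr ⟨o, φ1.eval, φ2.eval, h, L_pos h', L_pos h'', ?_⟩)
    have := L_le φ1
    have := L_le φ2
    omega

lemma small_cases [Fintype V] {f : (V → Bool) → Bool} (h : L f ≤ 1) :
    IsC f ∨ ∃ v b, IsLit f v b := by
  rcases decomp f with h' | h' | ⟨o, g, h', -, h1, h2, h3⟩
  exacts [Or.inl h', Or.inr h', by omega]

lemma IsC.L_eq {f : (V → Bool) → Bool} (h : IsC f) : L f = 0 := by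
  obtain ⟨b, rfl⟩ := h
  exact L_const b

/-- Counting: some function needs many leaves. -/
theorem exists_hard [Fintype V] (hV : 0 < Fintype.card V) :
    ∃ f : (V → Bool) → Bool, 2 ^ 2 ^ Fintype.card V ≤ 2 + (16 * Fintype.card V) ^ L f := by
  set m := Fintype.card V with hm
  set x : ℝ := 1 / (16 * m) with hx
  have hm0 : (0 : ℝ) < m := by exact_mod_cast hV
  have hm1 : (1 : ℝ) ≤ m := by exact_mod_cast hV
  have hx0 : 0 < x := by positivity
  have hx1 : x ≤ 1 := by rw [hx, div_le_one (by positivity)]; linarith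
  let S : ℕ → Finset ((V → Bool) → Bool) := fun k => univ.filter fun f => 1 ≤ L f ∧ L f ≤ k
  have key : ∀ k, ∑ f ∈ S k, x ^ L f ≤ 1 / 4 := by
    intro k
    induction k with
    | zero =>
      rw [show S 0 = ∅ from Finset.filter_eq_empty_iff.2 fun f _ h => by omega]
      simp
    | succ k ih =>
      let A : Finset ((V → Bool) → Bool) :=
        (univ : Finset (V × Bool)).image fun p => fun y => y p.1 == p.2
      let G : Bool × ((V → Bool) → Bool) × ((V → Bool) → Bool) → (V → Bool) → Bool :=
        fun p y => gate p.1 (p.2.1 y) (p.2.2 y)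
      let P := ((univ : Finset Bool) ×ˢ S k ×ˢ S k).filter fun p => L p.2.1 + L p.2.2 ≤ L (G p)
      have hsub : S (k + 1) ⊆ (A.filter fun f => 1 ≤ L f) ∪ P.image G := by
        intro f hf
        simp only [S, mem_filter, mem_univ, true_and] at hf
        rcases decomp f with h' | ⟨v, b, h'⟩ | ⟨o, g, h, rfl, h1, h2, h3⟩
        · rw [h'.L_eq] at hf; omega
        · exact mem_union_left _ (mem_filter.2 ⟨mem_image.2 ⟨(v, b), mem_univ _, h'.symm⟩, hf.1⟩)
        · refine mem_union_right _ (mem_image.2 ⟨(o, g, h), ?_, rfl⟩)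
          simp only [P, S, mem_filter, mem_product, mem_univ, true_and]
          exact ⟨⟨⟨h1, by omega⟩, h2, by omega⟩, h3⟩
      have h1 : ∑ f ∈ A.filter (fun f => 1 ≤ L f), x ^ L f ≤ 1 / 8 := by
        calc _ ≤ ∑ f ∈ A.filter (fun f => 1 ≤ L f), x :=
              sum_le_sum fun f hf => pow_le_of_le_one hx0.le hx1 (by
                have := (mem_filter.1 hf).2; omega)
          _ ≤ (2 * m) * x := by
              rw [sum_const, nsmul_eq_mul]
              refine mul_le_mul_of_nonneg_right ?_ hx0.le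
              have : (A.filter fun f => 1 ≤ L f).card ≤ 2 * m :=
                (card_filter_le _ _).trans (card_image_le.trans (by simp [hm, mul_comm]))
              exact_mod_cast this
          _ = 1 / 8 := by rw [hx]; field_simp; norm_num
      have h2 : ∑ f ∈ P.image G, x ^ L f ≤ 1 / 8 := by
        calc _ ≤ ∑ p ∈ P, x ^ L (G p) :=
              sum_image_le_of_nonneg (f := fun f => x ^ L f) fun _ _ => by positivity
          _ ≤ ∑ p ∈ P, x ^ L p.2.1 * x ^ L p.2.2 := by
              refine sum_le_sum fun p hp => ?_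
              rw [← pow_add]
              exact pow_le_pow_of_le_one hx0.le hx1 (mem_filter.1 hp).2
          _ ≤ ∑ p ∈ (univ : Finset Bool) ×ˢ S k ×ˢ S k, x ^ L p.2.1 * x ^ L p.2.2 :=
              sum_le_sum_of_subset_of_nonneg (filter_subset _ _) fun _ _ _ => by positivity
          _ = 2 * ((∑ f ∈ S k, x ^ L f) * ∑ f ∈ S k, x ^ L f) := by
              rw [sum_product, sum_mul_sum]
              simp [sum_product]
          _ ≤ 1 / 8 := by
              have h0 : 0 ≤ ∑ f ∈ S k, x ^ L f := sum_nonneg fun _ _ => by positivity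
              nlinarith
      have h3 := sum_le_sum_of_subset_of_nonneg (f := fun f => x ^ L f) hsub
        fun _ _ _ => by positivity
      have h4 := sum_union_inter (s₁ := A.filter fun f => 1 ≤ L f) (s₂ := P.image G)
        (f := fun f => x ^ L f)
      have h5 : 0 ≤ ∑ f ∈ (A.filter fun f => 1 ≤ L f) ∩ P.image G, x ^ L f :=
        sum_nonneg fun _ _ => by positivity
      linarith
  obtain ⟨f, -, hf⟩ := exists_max_image univ (fun f : (V → Bool) → Bool => L f) univ_nonempty
  refine ⟨f, ?_⟩
  have h1 : ((S (L f)).card : ℝ) * x ^ L f ≤ 1 / 4 := by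
    refine le_trans ?_ (key (L f))
    rw [← nsmul_eq_mul, ← sum_const]
    exact sum_le_sum fun g hg => pow_le_pow_of_le_one hx0.le hx1 (mem_filter.1 hg).2.2
  have h2 : (S (L f)).card ≤ (16 * m) ^ L f := by
    have e : x ^ L f * (16 * m) ^ L f = 1 := by
      rw [← mul_pow, hx, one_div_mul_cancel (by positivity), one_pow]
    have e2 : (0 : ℝ) < (16 * m) ^ L f := by positivity
    have : ((S (L f)).card : ℝ) ≤ (16 * m) ^ L f := by
      calc ((S (L f)).card : ℝ) = (S (L f)).card * x ^ L f * (16 * m) ^ L f := by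
            rw [mul_assoc, e, mul_one]
        _ ≤ 1 / 4 * (16 * m) ^ L f := mul_le_mul_of_nonneg_right h1 e2.le
        _ ≤ _ := by linarith
    exact_mod_cast this
  have h3 : (univ : Finset ((V → Bool) → Bool)) ⊆
      ((univ : Finset Bool).image fun b => fun _ => b) ∪ S (L f) := by
    intro g _
    by_cases hg : IsC g
    · obtain ⟨b, rfl⟩ := hg
      exact mem_union_left _ (mem_image.2 ⟨b, mem_univ _, rfl⟩)
    · exact mem_union_right _ (mem_filter.2 ⟨mem_univ _, L_pos hg, hf g (mem_univ _)⟩)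
  have h4 := (card_le_card h3).trans (card_union_le _ _)
  have h5 : ((univ : Finset Bool).image fun b => fun _ : V → Bool => b).card ≤ 2 :=
    card_image_le.trans (by simp)
  simp only [card_univ, Fintype.card_fun, Fintype.card_bool, ← hm] at h4
  omega

lemma split_fm (T : ℕ) (hT : 1 ≤ T) (φ : Fm V) (h : T < φ.size) :
    ∃ (o : Bool) (θ1 θ2 c0 c1 : Fm V), θ1.size ≤ T ∧ θ2.size ≤ T ∧ T < θ1.size + θ2.size ∧
      c1.size = c0.size ∧ θ1.size + θ2.size + c0.size = φ.size ∧
      φ.eval = (node false c0 (node true (node o θ1 θ2) c1)).eval := by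
  induction φ with
  | const b => simp [size] at h
  | lit v b => simp only [size] at h; omega
  | node o φ ψ ih1 ih2 =>
    by_cases h1 : T < φ.size
    · obtain ⟨o', θ1, θ2, c0, c1, e1, e2, e3, e4, e5, e6⟩ := ih1 h1
      refine ⟨o', θ1, θ2, node o c0 ψ, node o c1 ψ, e1, e2, e3, by simp only [size, e4],
        by simp only [size]; omega, funext fun x => ?_⟩
      simp only [eval, e6]
      generalize gate o' (θ1.eval x) (θ2.eval x) = t
      cases o <;> cases t <;> cases c0.eval x <;> cases c1.eval x <;> cases ψ.eval x <;> rfl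
    by_cases h2 : T < ψ.size
    · obtain ⟨o', θ1, θ2, c0, c1, e1, e2, e3, e4, e5, e6⟩ := ih2 h2
      refine ⟨o', θ1, θ2, node o φ c0, node o φ c1, e1, e2, e3, by simp only [size, e4],
        by simp only [size]; omega, funext fun x => ?_⟩
      simp only [eval, e6]
      generalize gate o' (θ1.eval x) (θ2.eval x) = t
      cases o <;> cases t <;> cases c0.eval x <;> cases c1.eval x <;> cases φ.eval x <;> rfl
    · refine ⟨o, φ, ψ, const false, const true, by omega, by omega, h, rfl, rfl, funext fun x => ?_⟩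
      simp only [eval]
      generalize gate o (φ.eval x) (ψ.eval x) = t
      cases t <;> rfl

/-- Balancing (Bonet and Buss). -/
theorem balance (j : ℕ) (hj : 1 ≤ j) (t : ℕ) : ∀ φ : Fm V, φ.size * j ^ t ≤ (j + 1) ^ t →
    ∃ ψ : Fm V, ψ.eval = φ.eval ∧ ψ.depth ≤ 3 * t ∧
      ψ.size ≤ φ.size * 2 ^ Nat.log (j + 1) φ.size := by
  have small : ∀ φ : Fm V, φ.size ≤ 1 → ∃ ψ : Fm V, ψ.eval = φ.eval ∧ ψ.depth = 0 ∧
      ψ.size ≤ φ.size * 2 ^ Nat.log (j + 1) φ.size := by
    intro φ h
    rcases decomp_fm φ with ⟨b, h'⟩ | ⟨h1, v, b, h'⟩ | ⟨o, φ1, φ2, -, h1, h2, h3⟩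
    · exact ⟨const b, h'.symm, rfl, Nat.zero_le _⟩
    · exact ⟨lit v b, h'.symm, rfl, Nat.mul_pos h1 (Nat.two_pow_pos _)⟩
    · have := size_pos _ h1
      have := size_pos _ h2
      omega
  induction t with
  | zero =>
    intro φ h
    obtain ⟨ψ, h1, h2, h3⟩ := small φ (by simpa using h)
    exact ⟨ψ, h1, by omega, h3⟩
  | succ t ih =>
    intro φ h
    by_cases hs : φ.size ≤ 1
    · obtain ⟨ψ, h1, h2, h3⟩ := small φ hs
      exact ⟨ψ, h1, by omega, h3⟩
    set s := φ.size with hsd
    have hT1 : (j + 1) * (j * s / (j + 1)) ≤ j * s := Nat.mul_div_le _ _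
    have hT2 : j * s < (j + 1) * (j * s / (j + 1) + 1) := Nat.lt_mul_div_succ _ (by omega)
    set T := j * s / (j + 1) with hT
    have hT3 : 1 ≤ T := by
      by_contra hc
      have : T = 0 := Nat.lt_one_iff.1 (not_le.1 hc)
      rw [this] at hT2
      nlinarith
    have hT4 : T < s := by
      by_contra hc
      nlinarith
    obtain ⟨o, θ1, θ2, c0, c1, e1, e2, e3, e4, e5, e6⟩ := split_fm T hT3 φ hT4
    have hr : (j + 1) * c0.size ≤ s := by nlinarith
    have piece : ∀ θ : Fm V, (j + 1) * θ.size ≤ j * s → θ.size * j ^ t ≤ (j + 1) ^ t := by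
      intro θ hθ
      refine Nat.le_of_mul_le_mul_left (c := j + 1) ?_ (by omega)
      calc (j + 1) * (θ.size * j ^ t) = (j + 1) * θ.size * j ^ t := by ring
        _ ≤ j * s * j ^ t := Nat.mul_le_mul_right _ hθ
        _ = s * j ^ (t + 1) := by ring
        _ ≤ (j + 1) ^ (t + 1) := h
        _ = _ := by ring
    obtain ⟨a1, f1, g1, k1⟩ := ih θ1 (piece _ (by nlinarith))
    obtain ⟨a2, f2, g2, k2⟩ := ih θ2 (piece _ (by nlinarith))
    obtain ⟨d0, f3, g3, k3⟩ := ih c0 (piece _ (by nlinarith))
    obtain ⟨d1, f4, g4, k4⟩ := ih c1 (piece _ (by rw [e4]; nlinarith))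
    refine ⟨node false d0 (node true (node o a1 a2) d1), ?_, ?_, ?_⟩
    · rw [e6]
      funext x
      simp only [eval, f1, f2, f3, f4]
    · simp only [depth]; omega
    · simp only [size]
      rw [e4] at k4
      have m1 : 2 ^ Nat.log (j + 1) θ1.size ≤ 2 ^ Nat.log (j + 1) s :=
        Nat.pow_le_pow_right (by norm_num) (Nat.log_mono_right (by omega))
      have m2 : 2 ^ Nat.log (j + 1) θ2.size ≤ 2 ^ Nat.log (j + 1) s :=
        Nat.pow_le_pow_right (by norm_num) (Nat.log_mono_right (by omega))
      have m3 : c0.size * (2 * 2 ^ Nat.log (j + 1) c0.size) ≤ c0.size * 2 ^ Nat.log (j + 1) s := by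
        rcases Nat.eq_zero_or_pos c0.size with h0 | h0
        · simp [h0]
        · refine Nat.mul_le_mul_left _ ?_
          rw [← pow_succ']
          refine Nat.pow_le_pow_right (by norm_num) ?_
          rw [← Nat.log_mul_base (by omega) (by omega)]
          exact Nat.log_mono_right (by rw [mul_comm]; exact hr)
      have n1 := k1.trans (Nat.mul_le_mul_left _ m1)
      have n2 := k2.trans (Nat.mul_le_mul_left _ m2)
      rw [← hsd] at e5
      rw [← e5] at n1 n2 m3 ⊢
      nlinarith

end Pool.Agent.MP_6b3410_lc.H19
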