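import Mathlib
import Pool.Agent.MP_6b3410_lc.H5.DHam

/-!
Directed Hamilton cycles with some switchable arcs as a restriction of Hamiltonicity.
-/

namespace Pool.Agent.MP_6b3410_lc.H19

open Classical Pool.Agent.MP_6b3410_lc.H5

/-- the edge slots on `n` vertices -/
abbrev Edge (n : ℕ) : Type := {p : Fin n × Fin n // p.1 < p.2}

/-- the graph with edge indicator `x` has a Hamilton cycle -/
abbrev Ham {n : ℕ} (x : Edge n → Bool) : Prop :=
  (SimpleGraph.fromRel fun i j : Fin n => ∃ h : i < j, x ⟨(i, j), h⟩ = true).IsHamiltonian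

/-- the slot of a pair of distinct vertices -/
def mkEdge {n : ℕ} (i j : Fin n) (h : i ≠ j) : Edge n :=
  if h' : i < j then ⟨(i, j), h'⟩ else ⟨(j, i), lt_of_le_of_ne (not_lt.1 h') h.symm⟩

lemma mkEdge_eq {n : ℕ} {i j : Fin n} (h : i ≠ j) (e : Edge n) :
    mkEdge i j h = e ↔ (i = e.1.1 ∧ j = e.1.2) ∨ (i = e.1.2 ∧ j = e.1.1) := by
  obtain ⟨⟨u, v⟩, huv⟩ := e
  unfold mkEdge
  split_ifs with h'
  · simp only [Subtype.mk.injEq, Prod.mk.injEq]
    constructor
    · exact Or.inl
    · rintro (h1 | ⟨rfl, rfl⟩)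
      · exact h1
      · exact absurd h' (not_lt.2 huv.le)
  · simp only [Subtype.mk.injEq, Prod.mk.injEq]
    constructor
    · exact fun h1 => Or.inr ⟨h1.2, h1.1⟩
    · rintro (⟨rfl, rfl⟩ | h1)
      · exact absurd huv h'
      · exact ⟨h1.2, h1.1⟩

theorem exists_rails {V ι : Type} [Fintype V] [Nonempty V] (n : ℕ)
    (hn : 3 * Fintype.card V ≤ n) (src tgt : ι → V)
    (hinj : ∀ p p', src p = src p' → tgt p = tgt p' → p = p') :
    ∃ rail : ι → Edge n, Function.Injective rail ∧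
      ∀ A0 : V → V → Prop, (∀ p, ¬ A0 (src p) (tgt p)) → ∃ rho : Edge n → Bool,
        ∀ x : Edge n → Bool, (∀ e, e ∉ Set.range rail → x e = rho e) →
          (Ham x ↔ DHam fun u v => A0 u v ∨ ∃ p, x (rail p) = true ∧ u = src p ∧ v = tgt p) := by
  obtain ⟨v0⟩ := ‹Nonempty V›
  let len : V → ℕ := fun v => if v = v0 then n - 3 * Fintype.card V else 0
  have hcard : Fintype.card (Spl len) = n := by
    rw [Fintype.card_sigma]
    simp only [Fintype.card_fin, Finset.sum_add_distrib, len, Finset.sum_ite_eq', Finset.mem_univ,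
      if_true, Finset.sum_const, Finset.card_univ, smul_eq_mul]
    omega
  let q : Spl len ≃ Fin n := Fintype.equivFinOfCardEq hcard
  let lst : V → Spl len := fun v => ⟨v, ⟨len v + 2, by omega⟩⟩
  let fst : V → Spl len := fun v => ⟨v, ⟨0, by omega⟩⟩
  have hlf : ∀ u v, lst u ≠ fst v := by
    intro u v h
    have := congrArg (fun p : Spl len => p.2.val) h
    simp [lst, fst] at this
  have hl : ∀ u v, lst u = lst v → u = v := fun u v h => congrArg Sigma.fst h
  have hf : ∀ u v, fst u = fst v → u = v := fun u v h => congrArg Sigma.fst h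
  let rail : ι → Edge n := fun p =>
    mkEdge (q (lst (src p))) (q (fst (tgt p))) (fun h => hlf _ _ (q.injective h))
  have hrail : ∀ p e, rail p = e ↔ (lst (src p) = q.symm e.1.1 ∧ fst (tgt p) = q.symm e.1.2) ∨
      (lst (src p) = q.symm e.1.2 ∧ fst (tgt p) = q.symm e.1.1) := by
    intro p e
    simp only [rail, mkEdge_eq, Equiv.eq_symm_apply]
  have hn3 : 3 ≤ Fintype.card (Fin n) := by
    rw [Fintype.card_fin]
    have : 0 < Fintype.card V := Fintype.card_pos_iff.2 ⟨v0⟩
    omega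
  have hri : Function.Injective rail := by
    intro p p' h
    rcases (hrail p _).1 h with ⟨h1, h2⟩ | ⟨h1, h2⟩ <;>
      rcases (hrail p' _).1 rfl with ⟨h3, h4⟩ | ⟨h3, h4⟩
    · exact hinj _ _ (hl _ _ (h1.trans h3.symm)) (hf _ _ (h2.trans h4.symm))
    · exact absurd (h1.trans h4.symm) (hlf _ _)
    · exact absurd (h1.trans h4.symm) (hlf _ _)
    · exact hinj _ _ (hl _ _ (h1.trans h3.symm)) (hf _ _ (h2.trans h4.symm))
  refine ⟨rail, hri, fun A0 hA0 => ?_⟩
  refine ⟨fun e => decide (St A0 (q.symm e.1.1) (q.symm e.1.2) ∨ St A0 (q.symm e.1.2) (q.symm e.1.1)),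
    fun x hx => ?_⟩
  set A1 : V → V → Prop := fun u v => A0 u v ∨ ∃ p, x (rail p) = true ∧ u = src p ∧ v = tgt p
    with hA1
  have hSt : ∀ u v : Spl len, St A1 u v ↔
      St A0 u v ∨ ∃ p, x (rail p) = true ∧ lst (src p) = u ∧ fst (tgt p) = v := by
    intro u v
    constructor
    · rintro (h | ⟨h1, h2, h3 | ⟨p, h3, h4, h5⟩⟩)
      · exact Or.inl (Or.inl h)
      · exact Or.inl (Or.inr ⟨h1, h2, h3⟩)
      · exact Or.inr ⟨p, h3, Spl.ext h4.symm (by simp only [lst]; rw [h1, h4]),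
          Spl.ext h5.symm (by simp only [fst]; rw [h2])⟩
    · rintro ((h | ⟨h1, h2, h3⟩) | ⟨p, h3, rfl, rfl⟩)
      · exact Or.inl h
      · exact Or.inr ⟨h1, h2, Or.inl h3⟩
      · exact Or.inr ⟨rfl, rfl, Or.inr ⟨p, h3, rfl, rfl⟩⟩
  have hno : ∀ p, ¬ St A0 (lst (src p)) (fst (tgt p)) ∧ ¬ St A0 (fst (tgt p)) (lst (src p)) := by
    intro p
    constructor
    · rintro (⟨-, h⟩ | ⟨-, -, h⟩)
      · simp [fst] at h
      · exact hA0 p h
    · rintro (⟨h1, h⟩ | ⟨h, -, -⟩)
      · simp [fst, lst] at h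
      · simp [fst] at h
  have hx' : ∀ e : Edge n, x e = true ↔
      St A1 (q.symm e.1.1) (q.symm e.1.2) ∨ St A1 (q.symm e.1.2) (q.symm e.1.1) := by
    intro e
    rw [hSt, hSt]
    by_cases he : e ∈ Set.range rail
    · obtain ⟨p, rfl⟩ := he
      constructor
      · intro h
        rcases (hrail p _).1 rfl with h1 | h1
        · exact Or.inl (Or.inr ⟨p, h, h1⟩)
        · exact Or.inr (Or.inr ⟨p, h, h1⟩)
      · rintro ((h | ⟨p', h, h1⟩) | (h | ⟨p', h, h1⟩))
        · exfalso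
          rcases (hrail p _).1 rfl with h1 | h1 <;> rw [← h1.1, ← h1.2] at h
          exacts [(hno p).1 h, (hno p).2 h]
        · rwa [← (hrail p' _).2 (Or.inl h1)]
        · exfalso
          rcases (hrail p _).1 rfl with h1 | h1 <;> rw [← h1.1, ← h1.2] at h
          exacts [(hno p).2 h, (hno p).1 h]
        · rwa [← (hrail p' _).2 (Or.inr h1)]
    · rw [hx e he, decide_eq_true_eq]
      constructor
      · exact fun h => h.imp Or.inl Or.inl
      · rintro ((h | ⟨p', -, h1⟩) | (h | ⟨p', -, h1⟩))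
        · exact Or.inl h
        · exact absurd ⟨p', (hrail p' _).2 (Or.inl h1)⟩ he
        · exact Or.inr h
        · exact absurd ⟨p', (hrail p' _).2 (Or.inr h1)⟩ he
  have hirr : ∀ u : Spl len, ¬ St A1 u u := by
    rintro u (h | h) <;> omega
  have hadj : ∀ i j : Fin n, (SimpleGraph.fromRel fun i j : Fin n =>
      ∃ h : i < j, x ⟨(i, j), h⟩ = true).Adj i j ↔
      St A1 (q.symm i) (q.symm j) ∨ St A1 (q.symm j) (q.symm i) := by
    intro i j
    simp only [SimpleGraph.fromRel_adj, hx']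
    constructor
    · rintro ⟨-, ⟨-, h⟩ | ⟨-, h⟩⟩
      exacts [h, h.symm]
    · intro h
      have hne : i ≠ j := fun h' => by
        subst h'
        exact h.elim (hirr _) (hirr _)
      refine ⟨hne, ?_⟩
      rcases lt_or_gt_of_ne hne with h' | h'
      exacts [Or.inl ⟨h', h⟩, Or.inr ⟨h', h.symm⟩]
  have : Nonempty V := ⟨v0⟩
  constructor
  · intro h
    exact dham_of_split ((dham_of_isHamiltonian hn3 h).equiv q.symm fun a b hab => (hadj a b).1 hab)
  · intro h
    refine isHamiltonian_of_dham hn3 ((split_of_dham (len := len) h).equiv q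
      fun a b hab => (hadj _ _).2 ?_)
    simpa using Or.inl hab

end Pool.Agent.MP_6b3410_lc.H19
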