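import Mathlib
import Pool.Agent.MP_6b3410_lc.H19.Chain
import Pool.Agent.MP_6b3410_lc.H19.Proj

/-!
Every 0-1 function of `4 s` parities of `a` bits each is a projection of Hamiltonicity on
`O(4 ^ s + a s)` vertices, with one fixed set of `16 s a` edge slots for the literals.
-/

namespace Pool.Agent.MP_6b3410_lc.H19

open Classical Pool.Agent.MP_6b3410_lc.H5

lemma exists_chain (ρ : Type) [Fintype ρ] (L : ρ → ℕ) :
    ∃ (row : Fin (∑ r, L r) → ρ) (pos : Fin (∑ r, L r) → ℕ),
      (∀ j, pos j < L (row j)) ∧ (∀ r m, m < L r → ∃ j, row j = r ∧ pos j = m) ∧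
      (∀ j j', row j = row j' → pos j = pos j' → j = j') ∧
      (∀ j j', row j = row j' → pos j + 1 = pos j' → j.val + 1 = j'.val) := by
  let f := (Fintype.equivFin ρ).symm
  have hs : ∑ i, L (f i) = ∑ r, L r := Equiv.sum_comp f L
  rw [← hs]
  let e := (finSigmaFinEquiv (n := fun i => L (f i)))
  have key : ∀ p q : (Σ i, Fin (L (f i))), p.1 = q.1 →
      (e p).val + q.2.val = (e q).val + p.2.val := by
    rintro ⟨i, k⟩ ⟨i', k'⟩ h
    dsimp only at h
    subst h
    simp only [e, finSigmaFinEquiv_apply]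
    omega
  refine ⟨fun j => f (e.symm j).1, fun j => (e.symm j).2.val, fun j => (e.symm j).2.2,
    fun r m hm => ?_, fun j j' h1 h2 => ?_, fun j j' h1 h2 => ?_⟩
  · obtain ⟨i, rfl⟩ := f.surjective r
    exact ⟨e ⟨i, ⟨m, hm⟩⟩, by beta_reduce; rw [e.symm_apply_apply],
      by beta_reduce; rw [e.symm_apply_apply]⟩
  · have := key _ _ (f.injective h1)
    simp only [Equiv.apply_symm_apply] at this h2
    exact Fin.ext (by omega)
  · have := key _ _ (f.injective h1)
    simp only [Equiv.apply_symm_apply] at this h2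
    omega

/-- address bits: a quarter of the address and a position -/
abbrev Ad (s : ℕ) : Type := (Bool × Bool) × Fin s

/-- parity -/
def par {a : ℕ} (z : Fin a → Bool) : Bool := decide (Odd (∑ j, (z j).toNat))

/-- parity of an initial segment -/
def pre {a : ℕ} (z : Fin a → Bool) (k : ℕ) : Bool :=
  decide (Odd (∑ m ∈ Finset.range k, if h : m < a then (z ⟨m, h⟩).toNat else 0))

lemma pre_zero {a : ℕ} (z : Fin a → Bool) : pre z 0 = false := by simp [pre]

lemma pre_succ {a : ℕ} (z : Fin a → Bool) (k : Fin a) :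
    pre z (k.val + 1) = xor (pre z k.val) (z k) := by
  simp only [pre, Finset.sum_range_succ, k.2, dif_pos, Fin.eta, Nat.odd_add]
  cases z k <;> simp [← Nat.not_odd_iff_even]

lemma pre_last {a : ℕ} (z : Fin a → Bool) : pre z a = par z := by
  simp only [pre, par, Finset.sum_range, Fin.is_lt, dif_pos, Fin.eta]

section inst

variable {s : ℕ}

abbrev Wd (s : ℕ) : Type := Fin s → Bool

abbrev Row (s : ℕ) : Type := Ad s ⊕ (Bool × Bool) × Wd s

abbrev Cl (s : ℕ) : Type := ((Bool × Bool) × Wd s) ⊕ Bool × Wd s × Wd s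

def rowLen (s a : ℕ) : Row s → ℕ
  | Sum.inl _ => a + 1 + 2 ^ s
  | Sum.inr _ => 1 + 2 ^ s

lemma exists_dec (s : ℕ) : ∃ dec : ℕ → Wd s, ∀ u, ∃ m, m < 2 ^ s ∧ dec m = u := by
  have hc : Fintype.card (Wd s) = 2 ^ s := by simp
  let e := Fintype.equivFinOfCardEq hc
  refine ⟨fun m => if h : m < 2 ^ s then e.symm ⟨m, h⟩ else fun _ => false, fun u => ?_⟩
  exact ⟨(e u).val, (e u).2, by simp⟩

def clsR (a : ℕ) (dec : ℕ → Wd s) : Row s → ℕ → Option (Cl s)
  | Sum.inl i, m => if a + 1 ≤ m then some (Sum.inl (i.1, dec (m - (a + 1)))) else none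
  | Sum.inr g, m => if m = 0 then some (Sum.inl g) else
      some (Sum.inr (g.1.1, if g.1.2 = true then (dec (m - 1), g.2) else (g.2, dec (m - 1))))

def polR (a : ℕ) (dec : ℕ → Wd s) : Row s → ℕ → Bool
  | Sum.inl i, m => !(dec (m - (a + 1)) i.2)
  | Sum.inr _, m => decide (m = 0)

/-- the quarter `k` of an address -/
def qt (α : Ad s → Bool) (k : Bool × Bool) : Wd s := fun τ => α (k, τ)

def leafA : Cl s → Prop := fun c => ∃ u, c = Sum.inr (false, u)

def leafB : Cl s → Prop := fun c => ∃ u, c = Sum.inr (true, u)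

def leafD (h : (Ad s → Bool) → Bool) : Cl s → Cl s → Prop := fun c c' =>
  ∃ α, h α = true ∧ c = Sum.inr (false, qt α (false, false), qt α (false, true)) ∧
    c' = Sum.inr (true, qt α (true, false), qt α (true, true))

/-- the sign of a literal slot -/
def sgn {a : ℕ} (p : (Ad s × Fin a) × Bool × Bool) : Bool :=
  xor p.2.2 (if p.1.2.val = 0 then false else !p.2.1)

variable {a M : ℕ} (row : Fin M → Row s) (pos : Fin M → ℕ)

/-- transitions -/
def trans (on : (Ad s × Fin a) × Bool × Bool → Prop) (j : Fin M) (b b' : Bool) : Prop :=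
  (∃ i, ∃ k : Fin a, row j = Sum.inl i ∧ pos j = k.val ∧ on ((i, k), b, b')) ∨
    ((∀ i, row j = Sum.inl i → a ≤ pos j) ∧ (pos j + 1 < rowLen s a (row j) → b' = !b))

variable {row pos}

lemma good_iff (dec : ℕ → Wd s) (hdec : ∀ u, ∃ m, m < 2 ^ s ∧ dec m = u) (ha : 0 < a)
    (h1 : ∀ r m, m < rowLen s a r → ∃ j, row j = r ∧ pos j = m)
    (h0 : ∀ j, pos j < rowLen s a (row j))
    (h3 : ∀ j j', row j = row j' → pos j + 1 = pos j' → j.val + 1 = j'.val)
    (h : (Ad s → Bool) → Bool) (z : Ad s × Fin a → Bool) :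
    Good (fun j => clsR a dec (row j) (pos j)) (fun j => polR a dec (row j) (pos j))
      (trans row pos fun p => (z p.1 == sgn p) = true) leafA leafB (leafD h) ↔
      h (fun i => par fun j => z (i, j)) = true := by
  set α : Ad s → Bool := fun i => par fun j => z (i, j) with hα
  constructor
  · rintro ⟨st, hT, c1, c2, hA, hB, ⟨α', hh, e1, e2⟩, hcl⟩
    -- states along a row
    have hprev : ∀ j m, pos j = m + 1 → ∃ j0, row j0 = row j ∧ pos j0 = m ∧
        trans row pos (fun p => (z p.1 == sgn p) = true) j0 (!st j0) (st j) := by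
      intro j m hm
      obtain ⟨j0, e1, e2⟩ := h1 (row j) m (by have := h0 j; omega)
      exact ⟨j0, e1, e2, hT _ _ (h3 _ _ e1 (by omega))⟩
    have hin : ∀ m, ∀ j i, row j = Sum.inl i → pos j = m + 1 →
        st j = pre (fun k => z (i, k)) (min (m + 1) a) := by
      intro m
      induction m using Nat.strong_induction_on with
      | _ m ih =>
        intro j i hr hp
        obtain ⟨j0, e1, e2, (⟨i', k, e3, e4, e5⟩ | ⟨e3, e4⟩)⟩ := hprev j m hp
        · obtain rfl : i = i' := by simpa [e1, hr] using e3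
          have hk := k.2
          rw [show min (m + 1) a = k.val + 1 by omega, pre_succ]
          simp only [sgn, Bool.not_not, beq_iff_eq] at e5
          rcases m with _ | m
          · rw [if_pos (by omega)] at e5
            rw [show k.val = 0 by omega, pre_zero, e5]; simp
          · rw [if_neg (by omega)] at e5
            have := ih m (by omega) j0 i (e1.trans hr) e2
            rw [show min (m + 1) a = k.val by omega] at this
            rw [← this, e5]
            cases st j <;> cases st j0 <;> rfl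
        · have e5 := e3 i (e1.trans hr)
          have e6 := e4 (by rw [e1, e2, ← hp]; exact h0 j)
          obtain ⟨m, rfl⟩ : ∃ m', m = m' + 1 := ⟨m - 1, by omega⟩
          have := ih m (by omega) j0 i (e1.trans hr) e2
          rw [e6, Bool.not_not, this, show min (m + 1) a = min (m + 1 + 1) a by omega]
    have hg : ∀ m, ∀ j j' g, row j = Sum.inr g → pos j = m → row j' = Sum.inr g → pos j' = 0 →
        st j = st j' := by
      intro m
      induction m with
      | zero =>
        intro j j' g e1 e2 e3 e4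
        by_contra hne
        obtain ⟨j1, e5, e6⟩ := h1 (Sum.inr g) 1 (by simp only [rowLen]; have := Nat.two_pow_pos s; omega)
        have e7 := h3 j j1 (e1.trans e5.symm) (by omega)
        have e8 := h3 j' j1 (e3.trans e5.symm) (by omega)
        exact hne (by rw [show j = j' from Fin.ext (by omega)])
      | succ m ih =>
        intro j j' g e1 e2 e3 e4
        obtain ⟨j0, e5, e6, (⟨i', k, e7, -, -⟩ | ⟨-, e7⟩)⟩ := hprev j m e2
        · simp [e5, e1] at e7
        · rw [e7 (by rw [e5, e6, ← e2]; exact h0 j), Bool.not_not]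
          exact ih j0 j' g (e5.trans e1) e6 e3 e4
    have hw : ∀ k j, row j = Sum.inr (k, qt α k) → st j = true := by
      intro k j hj
      obtain ⟨j1, e3, e4⟩ := hcl (Sum.inl (k, qt α k)) (by simp [e1]) (by simp [e2])
      rcases hr : row j1 with i | g <;> simp only [hr, clsR, polR] at e3 e4
      · exfalso
        split_ifs at e3 with e5
        simp only [Option.some.injEq, Sum.inl.injEq, Prod.mk.injEq] at e3
        have := hin (pos j1 - 1) j1 i hr (by omega)
        rw [show min (pos j1 - 1 + 1) a = a by omega, pre_last, e4, e3.2, ← e3.1] at this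
        simp [qt, hα] at this
      · split_ifs at e3 with e5
        · simp only [Option.some.injEq, Sum.inl.injEq] at e3
          rw [hg _ j j1 _ hj rfl (hr.trans (by rw [e3])) e5, e4]
          simp [e5]
        · simp at e3
        · simp at e3
    have hleaf : ∀ side, Sum.inr (side, qt α (side, false), qt α (side, true)) = c1 ∨
        Sum.inr (side, qt α (side, false), qt α (side, true)) = c2 := by
      intro side
      by_contra hcon
      rw [not_or] at hcon
      obtain ⟨j1, e3, e4⟩ := hcl _ hcon.1 hcon.2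
      rcases hr : row j1 with i | ⟨⟨b1, b2⟩, u⟩ <;> simp only [hr, clsR, polR] at e3 e4
      · split_ifs at e3
        simp at e3
      · split_ifs at e3 with e5 e6
        · simp at e3
        · simp only [Option.some.injEq, Sum.inr.injEq, Prod.mk.injEq] at e3
          rw [hw (side, true) j1 (by rw [hr, e3.1, e6, e3.2.2])] at e4
          simp [e5] at e4
        · simp only [Option.some.injEq, Sum.inr.injEq, Prod.mk.injEq] at e3
          rw [hw (side, false) j1 (by rw [hr, e3.1, Bool.eq_false_iff.2 e6, e3.2.1])] at e4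
          simp [e5] at e4
    have f1 := hleaf false
    have f2 := hleaf true
    simp only [e1, e2, Sum.inr.injEq, Prod.mk.injEq, Bool.false_eq_true, Bool.true_eq_false,
      false_and, or_false, false_or, true_and] at f1 f2
    have : α = α' := by
      funext ⟨⟨b1, b2⟩, τ⟩
      cases b1 <;> cases b2
      exacts [congrFun f1.1 τ, congrFun f1.2 τ, congrFun f2.1 τ, congrFun f2.2 τ]
    rwa [this]
  · intro hh
    let val : Row s → ℕ → Bool
      | Sum.inl i, m => pre (fun k => z (i, k)) (min m a)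
      | Sum.inr g, _ => decide (g.2 = qt α g.1)
    refine ⟨fun j => val (row j) (pos j), fun j j' hj => ?_, _, _, ⟨_, rfl⟩, ⟨_, rfl⟩,
      ⟨α, hh, rfl, rfl⟩, ?_⟩
    · have hnext : pos j + 1 < rowLen s a (row j) → row j' = row j ∧ pos j' = pos j + 1 := by
        intro hlt
        obtain ⟨j1, e1, e2⟩ := h1 _ _ hlt
        have := h3 j j1 e1.symm e2.symm
        obtain rfl : j1 = j' := Fin.ext (by omega)
        exact ⟨e1, e2⟩
      by_cases hc : ∀ i, row j = Sum.inl i → a ≤ pos j
      · refine Or.inr ⟨hc, fun hlt => ?_⟩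
        obtain ⟨e1, e2⟩ := hnext hlt
        beta_reduce
        rw [Bool.not_not, e1, e2]
        rcases hr : row j with i | g
        · have := hc i hr
          simp only [val]
          rw [show min (pos j + 1) a = min (pos j) a by omega]
        · rfl
      · push Not at hc
        obtain ⟨i, hr, hlt⟩ := hc
        obtain ⟨e1, e2⟩ := hnext (by rw [hr]; simp only [rowLen]; have := Nat.two_pow_pos s; omega)
        refine Or.inl ⟨i, ⟨pos j, hlt⟩, hr, rfl, ?_⟩
        simp only [sgn, Bool.not_not, beq_iff_eq, e1, e2, hr, val]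
        rw [show min (pos j + 1) a = pos j + 1 by omega, show min (pos j) a = pos j by omega,
          pre_succ _ ⟨pos j, hlt⟩]
        split_ifs with e3
        · simp [e3, pre_zero]
        · simp only []
          cases pre (fun k => z (i, k)) (pos j) <;> simp
    · rintro (⟨k, u⟩ | ⟨side, u1, u2⟩) hc1 hc2
      · by_cases hu : u = qt α k
        · obtain ⟨j, e1, e2⟩ := h1 (Sum.inr (k, u)) 0 (by simp [rowLen])
          exact ⟨j, by simp [e1, e2, clsR], by simp [e1, e2, polR, val, hu]⟩
        · obtain ⟨τ, hτ⟩ := Function.ne_iff.1 hu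
          obtain ⟨m, hm, rfl⟩ := hdec u
          obtain ⟨j, e1, e2⟩ := h1 (Sum.inl (k, τ)) (a + 1 + m) (by simp [rowLen, hm])
          refine ⟨j, by simp [e1, e2, clsR], ?_⟩
          simp only [e1, e2, polR, val, Nat.add_sub_cancel_left]
          rw [show min (a + 1 + m) a = a by omega, pre_last]
          simp only [qt, hα] at hτ
          revert hτ
          cases dec m τ <;> cases (par fun j => z ((k, τ), j)) <;> simp
      · by_cases hu : u1 = qt α (side, false)
        · have hu2 : u2 ≠ qt α (side, true) := by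
            rintro rfl
            subst hu
            cases side
            exacts [hc1 rfl, hc2 rfl]
          obtain ⟨m, hm, rfl⟩ := hdec u1
          obtain ⟨j, e1, e2⟩ := h1 (Sum.inr ((side, true), u2)) (1 + m) (by simp [rowLen, hm])
          exact ⟨j, by simp [e1, e2, clsR], by simp [e1, e2, polR, val, hu2]⟩
        · obtain ⟨m, hm, rfl⟩ := hdec u2
          obtain ⟨j, e1, e2⟩ := h1 (Sum.inr ((side, false), u1)) (1 + m) (by simp [rowLen, hm])
          exact ⟨j, by simp [e1, e2, clsR], by simp [e1, e2, polR, val, hu]⟩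

end inst

/-- The gadget theorem. -/
theorem gadget (s a n : ℕ) (ha : 0 < a) (hn : 200 * (4 ^ s + a * s) ≤ n) :
    ∃ rail : (Ad s × Fin a) × Bool × Bool → Edge n, Function.Injective rail ∧
      ∀ h : (Ad s → Bool) → Bool, ∃ rho : Edge n → Bool,
        ∀ (z : Ad s × Fin a → Bool) (x : Edge n → Bool),
          (∀ p, x (rail p) = (z p.1 == sgn p)) → (∀ e, e ∉ Set.range rail → x e = rho e) →
          (Ham x ↔ h (fun i => par fun j => z (i, j)) = true) := by
  obtain ⟨row, pos, h0, h1, h2, h3⟩ := exists_chain (Row s) (rowLen s a)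
  obtain ⟨dec, hdec⟩ := exists_dec s
  have hM : ∑ r, rowLen s a r = 4 * s * (a + 1 + 2 ^ s) + 4 * 2 ^ s * (1 + 2 ^ s) := by
    simp [Fintype.sum_sum_type, rowLen]
  have h2s := Nat.two_pow_pos s
  have hM0 : 0 < ∑ r, rowLen s a r := by rw [hM]; positivity
  generalize (∑ r, rowLen s a r) = M at *
  have hK : Fintype.card (Cl s) = 4 * 2 ^ s + 2 * (2 ^ s * 2 ^ s) := by simp
  have hV : 3 * Fintype.card (Vx M (Cl s)) ≤ n := by
    rw [card_vx, hK, hM]
    refine le_trans ?_ hn
    have e1 : s ≤ 2 ^ s := Nat.lt_two_pow_self.le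
    have e2 : 4 ^ s = 2 ^ s * 2 ^ s := by rw [← mul_pow]; rfl
    rw [e2]
    nlinarith
  have : Nonempty (Vx M (Cl s)) := ⟨Vx.P true⟩
  have hs : ∀ q : Ad s × Fin a, ∃ j j' : Fin M, row j = Sum.inl q.1 ∧ pos j = q.2.val ∧
      j.val + 1 = j'.val := by
    rintro ⟨i, k⟩
    have := k.2
    obtain ⟨j, e1, e2⟩ := h1 (Sum.inl i) k.val (by simp only [rowLen]; omega)
    obtain ⟨j', e3, e4⟩ := h1 (Sum.inl i) (k.val + 1) (by simp only [rowLen]; omega)
    exact ⟨j, j', e1, e2, h3 _ _ (e1.trans e3.symm) (by omega)⟩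
  choose j1 j2 hj1 hj2 hj3 using hs
  obtain ⟨rail, hri, hr⟩ := exists_rails (V := Vx M (Cl s)) n hV
    (fun p : (Ad s × Fin a) × Bool × Bool => Vx.E (j1 p.1) p.2.1)
    (fun p => Vx.E (j2 p.1) p.2.2) (by
      rintro ⟨⟨i, k⟩, b1, b2⟩ ⟨⟨i', k'⟩, b1', b2'⟩ e1 e2
      simp only [Vx.E.injEq] at e1 e2
      have e3 := hj1 (i, k)
      have e4 := hj2 (i, k)
      rw [e1.1, hj1] at e3
      rw [e1.1, hj2] at e4
      simp only [Sum.inl.injEq] at e3 e4
      rw [e3, Fin.ext e4, e1.2, e2.2])
  refine ⟨rail, hri, fun h => ?_⟩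
  obtain ⟨rho, hrho⟩ := hr (Arc (fun j => clsR a dec (row j) (pos j))
    (fun j => polR a dec (row j) (pos j)) (trans (a := a) row pos fun _ => False) leafA leafB
    (leafD h)) (by
      rintro ⟨q, b1, b2⟩ ⟨-, (⟨_, _, -, -, h4⟩ | ⟨h4, -⟩)⟩
      · exact h4
      · have := h4 _ (hj1 q)
        rw [hj2] at this
        exact absurd q.2.2 (not_lt.2 this))
  refine ⟨rho, fun z x hx hx' => ?_⟩
  rw [hrho x hx', ← good_iff dec hdec ha h1 h0 h3 h z, ← chain_iff hM0 (by
    rintro c ⟨u, rfl⟩ ⟨u', h'⟩
    simp at h')]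
  refine iff_of_eq (congrArg DHam ?_)
  funext u v
  refine propext ⟨?_, fun hA => ?_⟩
  · rintro (hA | ⟨p, hp, rfl, rfl⟩)
    · cases u <;> cases v <;> first
        | exact hA
        | skip
      exact ⟨hA.1, hA.2.imp (fun ⟨_, _, _, _, h4⟩ => h4.elim) id⟩
    · exact ⟨hj3 _, Or.inl ⟨p.1.1, p.1.2, hj1 _, hj2 _, (hx p).symm.trans hp⟩⟩
  · cases u <;> cases v <;> first
      | exact Or.inl hA
      | skip
    rename_i j b j' b'
    rcases hA with ⟨e1, ⟨i, k, e2, e3, e4⟩ | e2⟩
    · obtain rfl : j = j1 (i, k) := h2 _ _ (e2.trans (hj1 (i, k)).symm)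
        (e3.trans (hj2 (i, k)).symm)
      have e5 := hj3 (i, k)
      obtain rfl : j' = j2 (i, k) := Fin.ext (by omega)
      exact Or.inr ⟨((i, k), b, b'), by rw [hx]; exact e4, rfl, rfl⟩
    · exact Or.inl ⟨e1, Or.inr e2⟩

end Pool.Agent.MP_6b3410_lc.H19
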