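import Mathlib
import Pool.Agent.MP_6b3410_lc.H19.Fm

/-!
Shrinkage of formulas of bounded depth under random restrictions (exponent two), after
Hastad and Filmus, Meir, Tal.
-/

namespace Pool.Agent.MP_6b3410_lc.H19

open Classical Finset Fm
open Function (update update_self update_of_ne update_eq_self)

variable {V : Type} [Fintype V]

/-- restrictions -/
abbrev Rs (V : Type) : Type := V → Option Bool

/-- the input given by a restriction and values for the free variables -/
def ap (ρ : Rs V) (x : V → Bool) : V → Bool := fun v => (ρ v).getD (x v)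

/-- restricted function -/
def res (f : (V → Bool) → Bool) (ρ : Rs V) : (V → Bool) → Bool := fun x => f (ap ρ x)

/-- weight of a restriction -/
noncomputable def wt (q : ℝ) (ρ : Rs V) : ℝ := ∏ v, if ρ v = none then q else 1

/-- weight of a set of restrictions -/
noncomputable def WW (q : ℝ) (E : Finset (Rs V)) : ℝ := ∑ ρ ∈ E, wt q ρ

variable {q : ℝ}

lemma wt_nonneg (hq : 0 ≤ q) (ρ : Rs V) : 0 ≤ wt q ρ :=
  prod_nonneg fun v _ => by split_ifs <;> positivity

lemma WW_nonneg (hq : 0 ≤ q) (E : Finset (Rs V)) : 0 ≤ WW q E :=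
  sum_nonneg fun _ _ => wt_nonneg hq _

lemma WW_mono (hq : 0 ≤ q) {E E' : Finset (Rs V)} (h : E ⊆ E') : WW q E ≤ WW q E' :=
  sum_le_sum_of_subset_of_nonneg h fun _ _ _ => wt_nonneg hq _

lemma wt_update (ρ : Rs V) (v : V) (h : ρ v = none) (c : Bool) :
    wt q ρ = q * wt q (update ρ v (some c)) := by
  unfold wt
  rw [← mul_prod_erase _ _ (mem_univ v), ← mul_prod_erase _ _ (mem_univ v), if_pos h,
    update_self, if_neg (by simp), one_mul]
  congr 1
  exact prod_congr rfl fun u hu => by rw [update_of_ne (ne_of_mem_erase hu)]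

lemma fix_le (hq : 0 ≤ q) (v : V) (c : Bool) (A S : Finset (Rs V))
    (hS : ∀ ρ ∈ S, ρ v = none ∧ update ρ v (some c) ∈ A) : WW q S ≤ q * WW q A := by
  have hinj : Set.InjOn (fun ρ : Rs V => update ρ v (some c)) S := by
    intro ρ h ρ' h' e
    funext u
    by_cases hu : u = v
    · rw [hu, (hS ρ h).1, (hS ρ' h').1]
    · simpa [update_of_ne hu] using congrFun e u
  calc WW q S = q * WW q (S.image fun ρ => update ρ v (some c)) := by
        unfold WW
        rw [sum_image hinj, mul_sum]
        exact sum_congr rfl fun ρ h => wt_update ρ v (hS ρ h).1 c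
    _ ≤ _ := mul_le_mul_of_nonneg_left (WW_mono hq fun ρ h => by
        obtain ⟨ρ', h', rfl⟩ := mem_image.1 h
        exact (hS ρ' h').2) hq

/-- the weight of the pairs that differ in one variable -/
noncomputable def EE (q : ℝ) (A B : Finset (Rs V)) : ℝ :=
  ∑ p : V × Bool, WW q (univ.filter fun ρ =>
    ρ p.1 = none ∧ update ρ p.1 (some !p.2) ∈ A ∧ update ρ p.1 (some p.2) ∈ B)

lemma EE_nonneg (hq : 0 ≤ q) (A B : Finset (Rs V)) : 0 ≤ EE q A B :=
  sum_nonneg fun _ _ => WW_nonneg hq _

lemma WW_split (E : Finset (Rs V)) (P : Rs V → Prop) [DecidablePred P] :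
    WW q E = WW q (E.filter P) + WW q (E.filter fun ρ => ¬ P ρ) :=
  (sum_filter_add_sum_filter_not _ _ _).symm

lemma EE_right (A B : Finset (Rs V)) (P : Rs V → Prop) [DecidablePred P] :
    EE q A B = EE q A (B.filter P) + EE q A (B.filter fun ρ => ¬ P ρ) := by
  unfold EE
  rw [← sum_add_distrib]
  refine sum_congr rfl fun p _ => ?_
  rw [WW_split _ fun ρ => P (update ρ p.1 (some p.2)), filter_filter, filter_filter]
  congr 2 <;> ext ρ <;> simp [and_assoc]

lemma EE_left (A B : Finset (Rs V)) (P : Rs V → Prop) [DecidablePred P] :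
    EE q A B = EE q (A.filter P) B + EE q (A.filter fun ρ => ¬ P ρ) B := by
  unfold EE
  rw [← sum_add_distrib]
  refine sum_congr rfl fun p _ => ?_
  rw [WW_split _ fun ρ => P (update ρ p.1 (some !p.2)), filter_filter, filter_filter]
  congr 2 <;> ext ρ <;> simp only [mem_filter, mem_univ, true_and] <;> tauto

lemma cs_step {e1 e2 K s1 s2 b1 b2 : ℝ} (hK : 0 ≤ K) (hs1 : 0 ≤ s1)
    (hs2 : 0 ≤ s2) (hb1 : 0 ≤ b1) (hb2 : 0 ≤ b2) (k1 : e1 ^ 2 ≤ K * s1 * b1)
    (k2 : e2 ^ 2 ≤ K * s2 * b2) : (e1 + e2) ^ 2 ≤ K * (s1 + s2) * (b1 + b2) := by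
  have h : 2 * (e1 * e2) ≤ K * (s1 * b2 + s2 * b1) := by
    refine abs_le_of_sq_le_sq' ?_ (by positivity) |>.2
    have h3 : e1 ^ 2 * e2 ^ 2 ≤ (K * s1 * b1) * (K * s2 * b2) :=
      mul_le_mul k1 k2 (sq_nonneg _) (by positivity)
    nlinarith [sq_nonneg (K * (s1 * b2 - s2 * b1))]
  nlinarith

theorem khrap (hq : 0 ≤ q) (φ : Fm V) : ∀ A B : Finset (Rs V),
    (∀ ρ ∈ A, φ.eval (ap ρ fun _ => false) = false) →
    (∀ ρ ∈ B, φ.eval (ap ρ fun _ => false) = true) →
    EE q A B ^ 2 ≤ q ^ 2 * φ.size * WW q A * WW q B := by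
  induction φ with
  | const b =>
    intro A B hA hB
    have : EE q A B = 0 := by
      refine sum_eq_zero fun p _ => ?_
      rw [filter_eq_empty_iff.2]
      · rfl
      · rintro ρ - ⟨-, h1, h2⟩
        have e1 := hA _ h1
        have e2 := hB _ h2
        simp only [eval] at e1 e2
        exact absurd (e1.symm.trans e2) (by simp)
    simp [this, size]
  | lit u c =>
    intro A B hA hB
    have h1 : EE q A B = WW q (univ.filter fun ρ =>
        ρ u = none ∧ update ρ u (some !c) ∈ A ∧ update ρ u (some c) ∈ B) := by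
      refine sum_eq_single (u, c) (fun p _ hp => ?_) (by simp)
      rw [filter_eq_empty_iff.2]
      · rfl
      · rintro ρ - ⟨-, h1, h2⟩
        have e1 := hA _ h1
        have e2 := hB _ h2
        simp only [eval, ap] at e1 e2
        by_cases hu : u = p.1
        · subst hu
          simp only [update_self, Option.getD_some, beq_iff_eq] at e2
          exact hp (Prod.ext rfl e2)
        · rw [update_of_ne hu] at e1 e2
          exact absurd (e1.symm.trans e2) (by simp)
    have h2 : EE q A B ≤ q * WW q A :=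
      h1 ▸ fix_le hq u (!c) A _ fun ρ h => ⟨(mem_filter.1 h).2.1, (mem_filter.1 h).2.2.1⟩
    have h3 : EE q A B ≤ q * WW q B :=
      h1 ▸ fix_le hq u c B _ fun ρ h => ⟨(mem_filter.1 h).2.1, (mem_filter.1 h).2.2.2⟩
    have h4 := mul_le_mul h2 h3 (EE_nonneg hq _ _) (mul_nonneg hq (WW_nonneg hq _))
    simp only [size, Nat.cast_one]
    nlinarith
  | node o φ ψ ih1 ih2 =>
    intro A B hA hB
    simp only [size, Nat.cast_add]
    cases o
    · let P : Rs V → Prop := fun ρ => φ.eval (ap ρ fun _ => false) = true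
      have hA' : ∀ ρ ∈ A, φ.eval (ap ρ fun _ => false) = false ∧
          ψ.eval (ap ρ fun _ => false) = false := fun ρ h => by simpa [eval, gate] using hA ρ h
      have k1 := ih1 A (B.filter P) (fun ρ h => (hA' ρ h).1) fun ρ h => (mem_filter.1 h).2
      have k2 := ih2 A (B.filter fun ρ => ¬ P ρ) (fun ρ h => (hA' ρ h).2) fun ρ h => by
        have e1 := hB ρ (mem_filter.1 h).1
        have e2 := (mem_filter.1 h).2
        simp only [eval, gate, P] at e1 e2
        simpa [e2] using e1
      rw [EE_right A B P, WW_split B P]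
      have := cs_step (K := q ^ 2 * WW q A) (mul_nonneg (sq_nonneg _) (WW_nonneg hq _))
        (Nat.cast_nonneg φ.size) (Nat.cast_nonneg ψ.size) (WW_nonneg hq (B.filter P))
        (WW_nonneg hq (B.filter fun ρ => ¬ P ρ)) (k1.trans_eq (by ring)) (k2.trans_eq (by ring))
      refine this.trans_eq ?_
      ring
    · let P : Rs V → Prop := fun ρ => φ.eval (ap ρ fun _ => false) = false
      have hB' : ∀ ρ ∈ B, φ.eval (ap ρ fun _ => false) = true ∧
          ψ.eval (ap ρ fun _ => false) = true := fun ρ h => by simpa [eval, gate] using hB ρ h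
      have k1 := ih1 (A.filter P) B (fun ρ h => (mem_filter.1 h).2) fun ρ h => (hB' ρ h).1
      have k2 := ih2 (A.filter fun ρ => ¬ P ρ) B (fun ρ h => by
        have e1 := hA ρ (mem_filter.1 h).1
        have e2 := (mem_filter.1 h).2
        simp only [eval, gate, P, Bool.not_eq_false] at e1 e2
        simpa [e2] using e1) fun ρ h => (hB' ρ h).2
      rw [EE_left A B P, WW_split A P]
      have := cs_step (K := q ^ 2 * WW q B) (mul_nonneg (sq_nonneg _) (WW_nonneg hq _))
        (Nat.cast_nonneg φ.size) (Nat.cast_nonneg ψ.size) (WW_nonneg hq (A.filter P))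
        (WW_nonneg hq (A.filter fun ρ => ¬ P ρ)) (k1.trans_eq (by ring)) (k2.trans_eq (by ring))
      refine this.trans_eq ?_
      ring

/-- sets of restrictions closed under fixing the variables of `φ` -/
def Fil (φ : Fm V) (E : Finset (Rs V)) : Prop :=
  ∀ ρ ∈ E, ∀ u, φ.occ u → ρ u = none → ∀ b, update ρ u (some b) ∈ E

omit [Fintype V] in
lemma ap_update (ρ : Rs V) (v : V) (h : ρ v = none) (c : Bool) (x : V → Bool) :
    ap (update ρ v (some c)) x = ap ρ (update x v c) := by
  funext u
  by_cases hu : u = v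
  · simp [ap, hu, h]
  · simp [ap, update_of_ne hu]

omit [Fintype V] in
lemma lit_alive {φ : Fm V} {ρ : Rs V} {v : V} {b : Bool} (h : IsLit (res φ.eval ρ) v b) :
    φ.occ v ∧ ρ v = none := by
  by_contra hcon
  have e1 := congrFun h (update (fun _ => false) v b)
  have e2 := congrFun h (update (fun _ => false) v !b)
  have e3 : res φ.eval ρ (update (fun _ => false) v b) =
      res φ.eval ρ (update (fun _ => false) v !b) := by
    refine φ.eval_congr fun u hu => ?_
    by_cases huv : u = v
    · subst huv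
      rcases h' : ρ u with _ | c
      · exact absurd ⟨hu, h'⟩ hcon
      · simp [ap, h']
    · simp [ap, update_of_ne huv]
  rw [e1, e2] at e3
  simp at e3

/-- weight of the restrictions in `E` that turn `φ` into a literal -/
noncomputable def P1 (q : ℝ) (φ : Fm V) (E : Finset (Rs V)) : ℝ :=
  ∑ p : V × Bool, WW q (E.filter fun ρ => IsLit (res φ.eval ρ) p.1 p.2)

theorem P1_le (hq : 0 ≤ q) (φ : Fm V) (E : Finset (Rs V)) (hE : Fil φ E) :
    P1 q φ E ≤ q * √φ.size * WW q E := by
  have k := khrap hq φ (E.filter fun ρ => φ.eval (ap ρ fun _ => false) = false)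
    (E.filter fun ρ => φ.eval (ap ρ fun _ => false) = true)
    (fun ρ h => (mem_filter.1 h).2) fun ρ h => (mem_filter.1 h).2
  have h1 : P1 q φ E ≤ EE q (E.filter fun ρ => φ.eval (ap ρ fun _ => false) = false)
      (E.filter fun ρ => φ.eval (ap ρ fun _ => false) = true) := by
    refine sum_le_sum fun p _ => WW_mono hq fun ρ h => ?_
    obtain ⟨h1, h2⟩ := mem_filter.1 h
    obtain ⟨h3, h4⟩ := lit_alive h2
    simp only [mem_filter, mem_univ, true_and, ap_update ρ _ h4]
    refine ⟨h4, ⟨hE ρ h1 _ h3 h4 _, ?_⟩, hE ρ h1 _ h3 h4 _, ?_⟩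
    · simpa [res] using congrFun h2 (update (fun _ => false) p.1 !p.2)
    · simpa [res] using congrFun h2 (update (fun _ => false) p.1 p.2)
  refine h1.trans (abs_le_of_sq_le_sq' (k.trans ?_)
    (mul_nonneg (by positivity) (WW_nonneg hq _))).2
  rw [mul_pow, mul_pow, Real.sq_sqrt (Nat.cast_nonneg _), mul_assoc, sq (WW q E)]
  exact mul_le_mul_of_nonneg_left (mul_le_mul (WW_mono hq (filter_subset _ _))
    (WW_mono hq (filter_subset _ _)) (WW_nonneg hq _) (WW_nonneg hq _)) (by positivity)

/-- the size, not counting literals -/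
noncomputable def L2 (f : (V → Bool) → Bool) : ℝ := if 2 ≤ L f then L f else 0

omit [Fintype V] in
lemma L2_nonneg (f : (V → Bool) → Bool) : 0 ≤ L2 f := by
  unfold L2; split_ifs <;> positivity

omit [Fintype V] in
lemma L2_le (f : (V → Bool) → Bool) : L2 f ≤ L f := by
  unfold L2; split_ifs
  exacts [le_rfl, by positivity]

/-- the extra cost of a gate with a literal -/
noncomputable def YY (g : (V → Bool) → Bool) : ℝ :=
  if L g = 0 then 0 else if L g = 1 then 2 else 1

omit [Fintype V] in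
lemma YY_nonneg (g : (V → Bool) → Bool) : 0 ≤ YY g := by
  unfold YY; split_ifs <;> norm_num

omit [Fintype V] in
lemma YY_le_two (g : (V → Bool) → Bool) : YY g ≤ 2 := by
  unfold YY; split_ifs <;> norm_num

lemma YY_le (g : (V → Bool) → Bool) :
    YY g ≤ 2 * (∑ p : V × Bool, if IsLit g p.1 p.2 then (1 : ℝ) else 0) + L2 g := by
  have h0 : (0 : ℝ) ≤ ∑ p : V × Bool, if IsLit g p.1 p.2 then (1 : ℝ) else 0 :=
    sum_nonneg fun _ _ => by split_ifs <;> norm_num
  have h1 := L2_nonneg g
  unfold YY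
  split_ifs with h2 h3
  · linarith
  · rcases small_cases h3.le with h | ⟨v, b, h⟩
    · exact absurd h.L_eq h2
    · have := single_le_sum (f := fun p : V × Bool => if IsLit g p.1 p.2 then (1 : ℝ) else 0)
        (fun _ _ => by split_ifs <;> norm_num) (mem_univ (v, b))
      rw [if_pos h] at this
      linarith
  · have h4 : 2 ≤ L g := by omega
    have h5 : (2 : ℝ) ≤ L g := by exact_mod_cast h4
    rw [L2, if_pos h4]
    linarith

/-- the substitution that fixes one variable -/
noncomputable def fixv (v : V) (c : Bool) : V → Bool ⊕ V × Bool :=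
  fun u => if u = v then Sum.inl c else Sum.inr (u, true)

omit [Fintype V] in
lemma pull_fixv (v : V) (c : Bool) (x : V → Bool) : pull (fixv v c) x = update x v c := by
  funext u
  by_cases hu : u = v
  · simp [pull, fixv, hu]
  · simp [pull, fixv, hu]

/-- the extra cost when `f` is a literal -/
noncomputable def XX (o : Bool) (f g : (V → Bool) → Bool) : ℝ :=
  ∑ p : V × Bool, if IsLit f p.1 p.2 then YY (fun x => g (update x p.1 (p.2 == o))) else 0

lemma XX_nonneg (o : Bool) (f g : (V → Bool) → Bool) : 0 ≤ XX o f g :=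
  sum_nonneg fun _ _ => by split_ifs; exacts [YY_nonneg _, le_rfl]

lemma gate_comm (o a b : Bool) : gate o a b = gate o b a := by
  cases o <;> cases a <;> cases b <;> rfl

lemma L2_small (o : Bool) (f g : (V → Bool) → Bool) (hf : L f ≤ 1) :
    L2 (fun x => gate o (f x) (g x)) ≤ L2 g + XX o f g := by
  have hX := XX_nonneg o f g
  rcases small_cases hf with ⟨b, rfl⟩ | ⟨v, b, h⟩
  · by_cases hbo : b = o
    · have : (fun x => gate o b (g x)) = g := by
        funext x; rw [hbo]; cases o <;> simp [gate]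
      rw [this]; linarith
    · have : (fun x => gate o b (g x)) = fun _ => b := by
        funext x; revert hbo; cases o <;> cases b <;> simp [gate]
      rw [this, L2, L_const, if_neg (by norm_num)]
      linarith [L2_nonneg g]
  · set g' : (V → Bool) → Bool := fun x => g (update x v (b == o)) with hg'
    have h1 : YY g' ≤ XX o f g := by
      have := single_le_sum (f := fun p : V × Bool =>
        if IsLit f p.1 p.2 then YY (fun x => g (update x p.1 (p.2 == o))) else 0)
        (fun _ _ => by split_ifs; exacts [YY_nonneg _, le_rfl]) (mem_univ (v, b))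
      rwa [if_pos h] at this
    have h2 : (fun x => gate o (f x) (g x)) = fun x => gate o (f x) (g' x) := by
      funext x
      rw [h]
      by_cases hx : x v = (b == o)
      · simp only [hg']; rw [← hx, update_eq_self]
      · beta_reduce
        revert hx; cases x v <;> cases b <;> cases o <;> simp [gate]
    have h3 : L g' ≤ L g := by
      have := L_pull (fixv v (b == o)) g
      simpa only [pull_fixv] using this
    have h4 := L_gate o f g'
    rw [h2]
    refine le_trans ?_ (add_le_add_right h1 _)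
    have h5 := L2_nonneg g
    unfold YY
    split_ifs with h6 h7
    · rw [L2, if_neg (by omega)]; linarith
    · have : (L (fun x => gate o (f x) (g' x)) : ℝ) ≤ 2 := by exact_mod_cast (by omega)
      linarith [L2_le (fun x => gate o (f x) (g' x))]
    · have : (L (fun x => gate o (f x) (g' x)) : ℝ) ≤ L g + 1 := by exact_mod_cast (by omega)
      have e : L2 g = L g := if_pos (by omega)
      linarith [L2_le (fun x => gate o (f x) (g' x))]

lemma L2_gate (o : Bool) (f g : (V → Bool) → Bool) :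
    L2 (fun x => gate o (f x) (g x)) ≤ L2 f + L2 g + XX o f g + XX o g f := by
  have h1 := XX_nonneg o f g
  have h2 := XX_nonneg o g f
  have h3 := L2_nonneg f
  have h4 := L2_nonneg g
  by_cases hf : L f ≤ 1
  · linarith [L2_small o f g hf]
  by_cases hg : L g ≤ 1
  · have := L2_small o g f hg
    simp only [gate_comm o (g _)] at this
    linarith
  have e1 : L2 f = L f := if_pos (by omega)
  have e2 : L2 g = L g := if_pos (by omega)
  have e3 : (L (fun x => gate o (f x) (g x)) : ℝ) ≤ L f + L g := by exact_mod_cast L_gate o f g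
  linarith [L2_le (fun x => gate o (f x) (g x))]

/-- expected size -/
noncomputable def SS (q : ℝ) (φ : Fm V) (E : Finset (Rs V)) : ℝ :=
  ∑ ρ ∈ E, wt q ρ * L2 (res φ.eval ρ)

lemma extra_le (hq : 0 ≤ q) {D c : ℝ} (hD : 1 ≤ D) (hc : 0 ≤ c) (o : Bool) (φ ψ : Fm V)
    (E : Finset (Rs V)) (h1 : Fil φ E) (h2 : Fil ψ E)
    (ih : ∀ ψ' : Fm V, ψ'.depth = ψ.depth → ∀ E', Fil ψ' E' →
      SS q ψ' E' ≤ c * (q ^ 2 * ψ'.size) * WW q E') :
    ∑ ρ ∈ E, wt q ρ * XX o (res φ.eval ρ) (res ψ.eval ρ) ≤
      (2 * D * (q ^ 2 * φ.size) + (1 + c / D) * (q ^ 2 * ψ.size)) * WW q E := by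
  set α := q * √φ.size with hα
  set β := q * √ψ.size with hβ
  have hα0 : 0 ≤ α := by positivity
  have hβ0 : 0 ≤ β := by positivity
  have hα2 : q ^ 2 * φ.size = α ^ 2 := by rw [hα, mul_pow, Real.sq_sqrt (Nat.cast_nonneg _)]
  have hβ2 : q ^ 2 * ψ.size = β ^ 2 := by rw [hβ, mul_pow, Real.sq_sqrt (Nat.cast_nonneg _)]
  have hW := WW_nonneg hq E
  have hP := P1_le hq φ E h1
  let E' : V × Bool → Finset (Rs V) := fun p => E.filter fun ρ => IsLit (res φ.eval ρ) p.1 p.2
  let ψ' : V × Bool → Fm V := fun p => ψ.proj (fixv p.1 (p.2 == o))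
  have e1 : ∑ ρ ∈ E, wt q ρ * XX o (res φ.eval ρ) (res ψ.eval ρ) =
      ∑ p : V × Bool, ∑ ρ ∈ E' p, wt q ρ * YY (res (ψ' p).eval ρ) := by
    simp only [XX, mul_sum]
    rw [sum_comm]
    refine sum_congr rfl fun p _ => ?_
    rw [sum_filter]
    refine sum_congr rfl fun ρ _ => ?_
    split_ifs with h
    · congr 2
      funext x
      simp only [res, ψ', eval_proj, pull_fixv]
      congr 1
      funext u
      by_cases hu : u = p.1
      · simp [ap, hu, (lit_alive h).2]
      · simp [ap, update_of_ne hu]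
    · simp
  have hF : ∀ p, Fil (ψ' p) (E' p) := by
    intro p ρ hρ u hu hn b
    obtain ⟨v, b', h3, h4⟩ := occ_proj _ _ _ hu
    simp only [fixv] at h4
    split_ifs at h4 with h5
    obtain rfl : v = u := by simpa using congrArg Prod.fst (Sum.inr.inj h4)
    obtain ⟨h6, h7⟩ := mem_filter.1 hρ
    refine mem_filter.2 ⟨h2 ρ h6 v h3 hn b, funext fun x => ?_⟩
    have := congrFun h7 (update x v b)
    simp only [res] at this ⊢
    rw [ap_update ρ v hn, this, update_of_ne (Ne.symm h5)]
  have hsz : ∀ p, ((ψ' p).size : ℝ) ≤ ψ.size := fun p => by exact_mod_cast size_proj _ _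
  have b1 : ∑ p : V × Bool, ∑ ρ ∈ E' p, wt q ρ * YY (res (ψ' p).eval ρ) ≤ 2 * (α * WW q E) := by
    refine le_trans ?_ (mul_le_mul_of_nonneg_left hP (by norm_num))
    rw [P1, mul_sum]
    refine sum_le_sum fun p _ => ?_
    rw [WW, mul_sum]
    exact sum_le_sum fun ρ _ => by nlinarith [wt_nonneg hq ρ, YY_le_two (res (ψ' p).eval ρ)]
  have b2 : ∑ p : V × Bool, ∑ ρ ∈ E' p, wt q ρ * YY (res (ψ' p).eval ρ) ≤
      (2 * β + c * β ^ 2) * (α * WW q E) := by
    refine le_trans ?_ (mul_le_mul_of_nonneg_left hP (by positivity))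
    rw [P1, mul_sum]
    refine sum_le_sum fun p _ => ?_
    have k1 := P1_le hq (ψ' p) (E' p) (hF p)
    have k2 := ih (ψ' p) (depth_proj _ _) (E' p) (hF p)
    have hW' := WW_nonneg hq (E' p)
    have k3 : ∑ ρ ∈ E' p, wt q ρ * YY (res (ψ' p).eval ρ) ≤
        2 * P1 q (ψ' p) (E' p) + SS q (ψ' p) (E' p) := by
      have : P1 q (ψ' p) (E' p) = ∑ ρ ∈ E' p, wt q ρ *
          ∑ p' : V × Bool, if IsLit (res (ψ' p).eval ρ) p'.1 p'.2 then (1 : ℝ) else 0 := by
        simp only [P1, WW, mul_sum, sum_filter]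
        rw [sum_comm]
        simp
      rw [this, SS, mul_sum, ← sum_add_distrib]
      exact sum_le_sum fun ρ _ => by nlinarith [wt_nonneg hq ρ, YY_le (res (ψ' p).eval ρ)]
    have k4 : q * √(ψ' p).size ≤ β := mul_le_mul_of_nonneg_left (Real.sqrt_le_sqrt (hsz p)) hq
    have k5 : q ^ 2 * (ψ' p).size ≤ β ^ 2 :=
      hβ2 ▸ mul_le_mul_of_nonneg_left (hsz p) (sq_nonneg _)
    have k6 := mul_le_mul_of_nonneg_right k4 hW'
    have k7 := mul_le_mul_of_nonneg_right (mul_le_mul_of_nonneg_left k5 hc) hW'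
    change _ ≤ _ * WW q (E' p)
    nlinarith
  rw [e1, hα2, hβ2]
  have hD0 : 0 < D := by linarith
  by_cases hcase : 1 ≤ α * D
  · refine b1.trans ?_
    rw [← mul_assoc]
    refine mul_le_mul_of_nonneg_right ?_ hW
    have : 0 ≤ (1 + c / D) * β ^ 2 := by positivity
    nlinarith
  · refine b2.trans ?_
    rw [← mul_assoc]
    refine mul_le_mul_of_nonneg_right ?_ hW
    have k1 : α ≤ 1 / D := by rw [le_div_iff₀ hD0]; linarith
    have k2 : c * β ^ 2 * α ≤ c / D * β ^ 2 := by
      calc c * β ^ 2 * α ≤ c * β ^ 2 * (1 / D) := mul_le_mul_of_nonneg_left k1 (by positivity)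
        _ = _ := by ring
    nlinarith [sq_nonneg (α - β), sq_nonneg α]

theorem shrink_aux (hq : 0 ≤ q) {D : ℝ} (hD : 1 ≤ D) (k : ℕ) : ∀ φ : Fm V, φ.depth ≤ k →
    ∀ E, Fil φ E → SS q φ E ≤ 3 * D * k * (1 + 1 / D) ^ k * (q ^ 2 * φ.size) * WW q E := by
  have hD0 : 0 < D := by linarith
  have base : ∀ φ : Fm V, φ.size ≤ 1 → ∀ E, SS q φ E = 0 := by
    intro φ h E
    refine sum_eq_zero fun ρ _ => ?_
    have h1 := L_pull (fun v => (ρ v).elim (Sum.inr (v, true)) Sum.inl) φ.eval
    have h2 : (fun y => φ.eval (pull (fun v => (ρ v).elim (Sum.inr (v, true)) Sum.inl) y)) =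
        res φ.eval ρ := by
      funext y
      simp only [res]
      congr 1
      funext v
      simp only [pull, ap]
      cases ρ v <;> simp
    rw [h2] at h1
    have := L_le φ
    rw [L2, if_neg (by omega), mul_zero]
  induction k with
  | zero =>
    intro φ h E _
    rw [base φ (by cases φ <;> simp_all [depth, size])]
    simp
  | succ k ih =>
    intro φ h E hE
    have hW := WW_nonneg hq E
    cases φ with
    | const b => rw [base _ (by simp [size])]; positivity
    | lit v b => rw [base _ (by simp [size])]; positivity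
    | node o φ ψ =>
      simp only [depth] at h
      set c := 3 * D * k * (1 + 1 / D) ^ k with hc
      have hc0 : 0 ≤ c := by positivity
      have f1 : Fil φ E := fun ρ h u hu => hE ρ h u (Or.inl hu)
      have f2 : Fil ψ E := fun ρ h u hu => hE ρ h u (Or.inr hu)
      have k1 := ih φ (by omega) E f1
      have k2 := ih ψ (by omega) E f2
      have k3 := extra_le hq hD hc0 o φ ψ E f1 f2 fun ψ' h' => ih ψ' (by omega)
      have k4 := extra_le hq hD hc0 o ψ φ E f2 f1 fun ψ' h' => ih ψ' (by omega)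
      have k5 : SS q (node o φ ψ) E ≤ SS q φ E + SS q ψ E +
          ∑ ρ ∈ E, wt q ρ * XX o (res φ.eval ρ) (res ψ.eval ρ) +
          ∑ ρ ∈ E, wt q ρ * XX o (res ψ.eval ρ) (res φ.eval ρ) := by
        simp only [SS, ← sum_add_distrib, ← mul_add]
        exact sum_le_sum fun ρ _ =>
          mul_le_mul_of_nonneg_left (L2_gate o (res φ.eval ρ) (res ψ.eval ρ)) (wt_nonneg hq ρ)
      have k6 : c + 2 * D + (1 + c / D) ≤ 3 * D * ((k + 1 : ℕ) : ℝ) * (1 + 1 / D) ^ (k + 1) := by
        have e1 : (1 : ℝ) ≤ (1 + 1 / D) ^ (k + 1) :=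
          one_le_pow₀ (by linarith [one_div_pos.2 hD0])
        have e2 : 3 * D * ((k + 1 : ℕ) : ℝ) * (1 + 1 / D) ^ (k + 1) =
            c + c / D + 3 * D * (1 + 1 / D) ^ (k + 1) := by
          rw [hc]; push_cast; ring
        rw [e2]
        nlinarith
      refine k5.trans ?_
      have k7 : 0 ≤ q ^ 2 * ((φ.size : ℝ) + ψ.size) * WW q E := by positivity
      have k8 := mul_le_mul_of_nonneg_right k6 k7
      simp only [size, Nat.cast_add φ.size]
      nlinarith

theorem shrink (hq : 0 ≤ q) (D : ℕ) (hD : 1 ≤ D) (φ : Fm V) (h : φ.depth ≤ D)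
    (E : Finset (Rs V)) (hE : ∀ ρ, ρ ∈ E) :
    SS q φ E ≤ 9 * D ^ 2 * (q ^ 2 * φ.size) * WW q E := by
  have hD' : (1 : ℝ) ≤ D := by exact_mod_cast hD
  refine (shrink_aux hq hD' D φ h E fun _ _ _ _ _ _ => hE _).trans ?_
  refine mul_le_mul_of_nonneg_right (mul_le_mul_of_nonneg_right ?_ (by positivity))
    (WW_nonneg hq _)
  have h1 : (1 + 1 / (D : ℝ)) ^ D ≤ 3 := by
    calc (1 + 1 / (D : ℝ)) ^ D ≤ Real.exp (1 / D) ^ D :=
          pow_le_pow_left₀ (by positivity) (by linarith [Real.add_one_le_exp (1 / (D : ℝ))]) _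
      _ = Real.exp 1 := by rw [← Real.exp_nat_mul]; congr 1; field_simp
      _ ≤ 3 := by linarith [Real.exp_one_lt_d9]
  nlinarith [mul_le_mul_of_nonneg_left h1 (show (0 : ℝ) ≤ 3 * D * D by positivity)]

end Pool.Agent.MP_6b3410_lc.H19
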