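import Mathlib
import Pool.Agent.MP_6b3410_lc.H9.Sym
import Pool.Agent.MP_6b3410_lc.H19.Gadget
import Pool.Agent.MP_6b3410_lc.H19.Shrink

/-!
The formula size lower bound for Hamiltonicity.
-/

namespace Pool.Agent.MP_6b3410_lc.H19

open Classical Finset Fm
open Function (update update_self update_of_ne update_eq_self)

lemma par_update {a : ℕ} (z : Fin a → Bool) (j : Fin a) (h : z j = false) (t : Bool) :
    par (update z j t) = xor t (par z) := by
  unfold par
  rw [← add_sum_erase _ _ (mem_univ j), ← add_sum_erase _ (fun i => (z i).toNat) (mem_univ j),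
    update_self, h, sum_congr rfl fun i hi => by rw [update_of_ne (ne_of_mem_erase hi)]]
  cases t <;> simp [Nat.odd_add, ← Nat.not_odd_iff_even]

lemma dead_le {I : Type} [Fintype I] {a : ℕ} {q : ℝ} (hq : 0 ≤ q) (i : I) :
    WW q (univ.filter fun ρ : Rs (I × Fin a) => ∀ j, ρ (i, j) ≠ none) * (1 + a * (q / 2)) ≤
      WW q (univ : Finset (Rs (I × Fin a))) := by
  let t : I × Fin a → Finset (Option Bool) := fun v =>
    if v.1 = i then {some true, some false} else univ
  have e1 : (univ.filter fun ρ : Rs (I × Fin a) => ∀ j, ρ (i, j) ≠ none) = Fintype.piFinset t := by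
    ext ρ
    simp only [mem_filter, mem_univ, true_and, Fintype.mem_piFinset, t]
    constructor
    · rintro h ⟨i', j⟩
      split_ifs with h'
      · have := h j
        rw [show i' = i from h']
        rcases h2 : ρ (i, j) with _ | _ | _ <;> simp_all
      · exact mem_univ _
    · intro h j h'
      have := h (i, j)
      simp [h'] at this
  have e2 : ∀ t : I × Fin a → Finset (Option Bool), WW q (Fintype.piFinset t) =
      ∏ v, ∑ o ∈ t v, if o = none then q else 1 := fun t => by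
    rw [prod_univ_sum]; rfl
  have e3 : (∑ o : Option Bool, if o = none then q else 1) = q + 2 := by
    simp [Fintype.sum_option]
  rw [e1, ← Fintype.piFinset_univ, e2, e2, Fintype.prod_prod_type, Fintype.prod_prod_type,
    ← mul_prod_erase _ _ (mem_univ i), ← mul_prod_erase univ _ (mem_univ i)]
  have e4 : ∏ x ∈ univ.erase i, ∏ y : Fin a, ∑ o ∈ t (x, y), (if o = none then q else 1) =
      ∏ x ∈ univ.erase i, ∏ _y : Fin a, ∑ o : Option Bool, if o = none then q else 1 := by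
    refine prod_congr rfl fun x hx => prod_congr rfl fun y _ => ?_
    simp only [t, if_neg (ne_of_mem_erase hx)]
  rw [e4, mul_right_comm]
  refine mul_le_mul_of_nonneg_right ?_ (prod_nonneg fun _ _ => prod_nonneg fun _ _ => by
    rw [e3]; positivity)
  have e5 : ∀ y : Fin a, ∑ o ∈ t (i, y), (if o = none then q else 1) = 2 := by
    intro y
    simp only [t, if_true]
    rw [sum_pair (by simp), if_neg (by simp), if_neg (by simp)]
    norm_num
  simp only [e5, e3, prod_const, card_univ, Fintype.card_fin]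
  calc (2 : ℝ) ^ a * (1 + a * (q / 2)) ≤ 2 ^ a * (1 + q / 2) ^ a :=
        mul_le_mul_of_nonneg_left (one_add_mul_le_pow (by linarith) a) (by positivity)
    _ = _ := by rw [← mul_pow]; congr 1; ring

theorem xor_comp {I : Type} [Fintype I] (hI : 0 < Fintype.card I) {a : ℕ} (ha : 0 < a)
    (h : (I → Bool) → Bool)
    (hL : 2 ≤ L h) (φ : Fm (I × Fin a)) (hφ : ∀ z, φ.eval z = h fun i => par fun j => z (i, j))
    (D : ℕ) (hD : 1 ≤ D) (hd : φ.depth ≤ D) :
    L h * a ^ 2 ≤ 288 * D ^ 2 * Fintype.card I ^ 2 * φ.size := by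
  set m := Fintype.card I with hm
  have ha' : (0 : ℝ) < a := by exact_mod_cast ha
  have hm' : (0 : ℝ) < m := by exact_mod_cast hI
  set q : ℝ := 4 * m / a with hq
  have hq0 : 0 < q := by positivity
  let Al : Finset (Rs (I × Fin a)) := univ.filter fun ρ => ∀ i, ∃ j, ρ (i, j) = none
  have hZ : 0 < WW q (univ : Finset (Rs (I × Fin a))) :=
    sum_pos (fun ρ _ => prod_pos fun v _ => by split_ifs <;> positivity) univ_nonempty
  have h1 : WW q (univ : Finset (Rs (I × Fin a))) ≤ 2 * WW q Al := by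
    have e1 := WW_split (q := q) (univ : Finset (Rs (I × Fin a))) fun ρ => ∀ i, ∃ j, ρ (i, j) = none
    have e2 : WW q (univ.filter fun ρ : Rs (I × Fin a) => ¬ ∀ i, ∃ j, ρ (i, j) = none) ≤
        ∑ i, WW q (univ.filter fun ρ : Rs (I × Fin a) => ∀ j, ρ (i, j) ≠ none) := by
      simp only [WW, sum_filter]
      rw [sum_comm]
      refine sum_le_sum fun ρ _ => ?_
      have hn : ∀ i ∈ (univ : Finset I), 0 ≤ if ∀ j, ρ (i, j) ≠ none then wt q ρ else 0 :=
        fun i _ => by split_ifs; exacts [wt_nonneg hq0.le _, le_rfl]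
      split_ifs with h'
      · exact sum_nonneg hn
      · push Not at h'
        obtain ⟨i, hi⟩ := h'
        have := single_le_sum hn (mem_univ i)
        rwa [if_pos hi] at this
    have e3 : (∑ i, WW q (univ.filter fun ρ : Rs (I × Fin a) => ∀ j, ρ (i, j) ≠ none)) *
        (1 + 2 * m) ≤ m * WW q (univ : Finset (Rs (I × Fin a))) := by
      rw [sum_mul, hm, ← nsmul_eq_mul, ← card_univ, ← sum_const]
      refine sum_le_sum fun i _ => ?_
      have := dead_le (a := a) hq0.le i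
      rwa [show (a : ℝ) * (q / 2) = 2 * m by rw [hq]; field_simp; norm_num] at this
    have e4 := mul_le_mul_of_nonneg_right e2 (show (0 : ℝ) ≤ 1 + 2 * m by positivity)
    have e5 := WW_nonneg hq0.le
      (univ.filter fun ρ : Rs (I × Fin a) => ¬ ∀ i, ∃ j, ρ (i, j) = none)
    have e6 : WW q (univ.filter fun ρ : Rs (I × Fin a) => ¬ ∀ i, ∃ j, ρ (i, j) = none) * 2 ≤
        WW q (univ : Finset (Rs (I × Fin a))) := by
      refine le_of_mul_le_mul_left ?_ hm'
      nlinarith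
    change _ ≤ 2 * WW q (univ.filter _)
    linarith
  have h2 : ∀ ρ ∈ Al, (L h : ℝ) ≤ L2 (res φ.eval ρ) := by
    intro ρ hρ
    choose j hj using (mem_filter.1 hρ).2
    let z0 : I → Fin a → Bool := fun i j' => (ρ (i, j')).getD false
    have e1 := L_pull (fun v : I × Fin a =>
      if v.2 = j v.1 then Sum.inr (v.1, !par (z0 v.1)) else Sum.inl false) (res φ.eval ρ)
    have e2 : (fun y => res φ.eval ρ (pull (fun v : I × Fin a =>
        if v.2 = j v.1 then Sum.inr (v.1, !par (z0 v.1)) else Sum.inl false) y)) = h := by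
      funext y
      simp only [res, hφ]
      congr 1
      funext i
      have e3 : (fun j' => ap ρ (pull (fun v : I × Fin a =>
          if v.2 = j v.1 then Sum.inr (v.1, !par (z0 v.1)) else Sum.inl false) y) (i, j')) =
          update (z0 i) (j i) (y i == !par (z0 i)) := by
        funext j'
        by_cases hj' : j' = j i
        · simp [ap, pull, hj', hj]
        · simp [ap, pull, hj', z0]
      rw [e3, par_update _ _ (by simp [z0, hj])]
      cases y i <;> cases par (z0 i) <;> rfl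
    rw [e2] at e1
    rw [L2, if_pos (hL.trans e1)]
    exact_mod_cast e1
  have h3 : (L h : ℝ) * WW q Al ≤ SS q φ univ := by
    calc (L h : ℝ) * WW q Al = ∑ ρ ∈ Al, wt q ρ * L h := by rw [WW, mul_comm, sum_mul]
      _ ≤ ∑ ρ ∈ Al, wt q ρ * L2 (res φ.eval ρ) :=
          sum_le_sum fun ρ hρ => mul_le_mul_of_nonneg_left (h2 ρ hρ) (wt_nonneg hq0.le _)
      _ ≤ _ := sum_le_sum_of_subset_of_nonneg (subset_univ _) fun ρ _ _ =>
          mul_nonneg (wt_nonneg hq0.le _) (L2_nonneg _)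
  have h4 := h3.trans (shrink hq0.le D hD φ hd univ mem_univ)
  have h5 : (L h : ℝ) ≤ 18 * D ^ 2 * (q ^ 2 * φ.size) := by
    refine le_of_mul_le_mul_right ?_ hZ
    have := mul_le_mul_of_nonneg_left h1 (Nat.cast_nonneg (α := ℝ) (L h))
    nlinarith
  have h6 : (L h : ℝ) * a ^ 2 ≤ 288 * D ^ 2 * m ^ 2 * φ.size := by
    refine (mul_le_mul_of_nonneg_right h5 (sq_nonneg _)).trans_eq ?_
    rw [hq]; field_simp; ring
  exact_mod_cast h6

lemma exists_perm_cnt {n : ℕ} {β : Type} [Fintype β] (rail : β → Edge n) (φ : Fm (Edge n)) :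
    ∃ σ : Equiv.Perm (Fin n), φ.cnt (fun e => ∃ p, σ • rail p = e) * Fintype.card (Edge n) ≤
      φ.size * Fintype.card β := by
  have key : ∀ φ : Fm (Edge n), ∑ σ : Equiv.Perm (Fin n),
      φ.cnt (fun e => ∃ p, σ • rail p = e) * Fintype.card (Edge n) ≤
      φ.size * Fintype.card β * Fintype.card (Equiv.Perm (Fin n)) := by
    intro φ
    induction φ with
    | const b => simp [cnt]
    | lit e b =>
      simp only [cnt, size, one_mul]
      rw [← sum_mul]
      refine (Nat.mul_le_mul_right _ (sum_le_sum (g := fun σ : Equiv.Perm (Fin n) =>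
        ∑ p, if σ • rail p = e then 1 else 0) fun σ _ => ?_)).trans ?_
      · split_ifs with h
        · obtain ⟨p, hp⟩ := h
          have := single_le_sum (f := fun p => if σ • rail p = e then 1 else 0)
            (fun _ _ => Nat.zero_le _) (mem_univ p)
          rwa [if_pos hp] at this
        · exact Nat.zero_le _
      · rw [sum_comm, sum_mul, sum_congr rfl fun p _ => by
          rw [← card_filter, H9.card_smul_eq (rail p) e]]
        simp
    | node o φ ψ ih1 ih2 =>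
      simp only [cnt, size, add_mul, sum_add_distrib]
      exact Nat.add_le_add ih1 ih2
  by_contra hcon
  push Not at hcon
  have h2 := sum_lt_sum_of_nonempty (s := (univ : Finset (Equiv.Perm (Fin n)))) univ_nonempty
    (fun σ _ => hcon σ)
  rw [sum_const, card_univ, smul_eq_mul, mul_comm] at h2
  exact absurd (key φ) (not_le.2 h2)

/-- Projection of a formula for Hamiltonicity to a small formula for `h` of parities. -/
theorem exists_small (s a n : ℕ) (ha : 0 < a) (hn : 200 * (4 ^ s + a * s) ≤ n) (φ : Fm (Edge n))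
    (hφ : ∀ x, φ.eval x = true ↔ Ham x) (h : (Ad s → Bool) → Bool) :
    ∃ ψ : Fm (Ad s × Fin a), (∀ z, ψ.eval z = h fun i => par fun j => z (i, j)) ∧
      ψ.size * Fintype.card (Edge n) ≤ φ.size * (16 * s * a) := by
  obtain ⟨rail, hri, hr⟩ := gadget s a n ha hn
  obtain ⟨rho, hrho⟩ := hr h
  obtain ⟨σ, hσ⟩ := exists_perm_cnt rail φ
  let τ : Edge n → Bool ⊕ (Ad s × Fin a) × Bool := fun e =>
    if h : ∃ p, σ • rail p = e then Sum.inr (h.choose.1, sgn h.choose) else Sum.inl (rho (σ⁻¹ • e))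
  refine ⟨φ.proj τ, fun z => ?_, ?_⟩
  · rw [eval_proj, Bool.eq_iff_iff, hφ, ← hrho z (fun e => pull τ z (σ • e))]
    · exact (H9.ham_smul σ _).symm
    · intro p
      have hex : ∃ p', σ • rail p' = σ • rail p := ⟨p, rfl⟩
      have e : hex.choose = p := hri (smul_left_cancel _ hex.choose_spec)
      simp only [pull, τ, dif_pos hex, e, Sum.elim_inr]
    · intro e he
      have hex : ¬ ∃ p', σ • rail p' = σ • e := fun ⟨p', hp'⟩ => he ⟨p', smul_left_cancel _ hp'⟩
      simp only [pull, τ, dif_neg hex, Sum.elim_inl, inv_smul_smul, id]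
  · refine (Nat.mul_le_mul_right _ (size_proj_le τ _ (fun e p hp => ?_) φ)).trans (hσ.trans_eq ?_)
    · by_contra hc
      simp only [τ, dif_neg hc] at hp
      simp at hp
    · simp only [Fintype.card_prod, Fintype.card_bool, Fintype.card_fin]
      ring

lemma balance_pow {V : Type} (j u : ℕ) (hj : 1 ≤ j) (φ : Fm V) (h : φ.size ≤ 2 ^ u) :
    ∃ ψ : Fm V, ψ.eval = φ.eval ∧ ψ.depth ≤ 3 * (j * u) ∧
      ψ.size ≤ φ.size * 2 ^ Nat.log (j + 1) (2 ^ u) := by
  have h1 : 2 * j ^ j ≤ (j + 1) ^ j := by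
    have hj' : (0 : ℝ) < j := by exact_mod_cast hj
    have h2 := one_add_mul_le_pow (a := 1 / (j : ℝ)) (by linarith [one_div_pos.2 hj']) j
    have h3 : (2 : ℝ) * j ^ j ≤ (j + 1) ^ j := by
      calc (2 : ℝ) * j ^ j = (1 + j * (1 / j)) * j ^ j := by field_simp; norm_num
        _ ≤ (1 + 1 / j) ^ j * j ^ j := mul_le_mul_of_nonneg_right h2 (by positivity)
        _ = _ := by rw [← mul_pow]; congr 1; field_simp
    exact_mod_cast h3
  obtain ⟨ψ, e1, e2, e3⟩ := balance j hj (j * u) φ (by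
    calc φ.size * j ^ (j * u) ≤ 2 ^ u * j ^ (j * u) := Nat.mul_le_mul_right _ h
      _ = (2 * j ^ j) ^ u := by rw [mul_pow, pow_mul]
      _ ≤ ((j + 1) ^ j) ^ u := Nat.pow_le_pow_left h1 u
      _ = _ := by rw [pow_mul])
  exact ⟨ψ, e1, e2, e3.trans (Nat.mul_le_mul_left _
    (Nat.pow_le_pow_right (by norm_num) (Nat.log_mono_right h)))⟩

theorem explicit_bound (j s n : ℕ) (hj : 1 ≤ j) (hs : 1 ≤ s) (hn : 400 * 4 ^ s ≤ n)
    (φ : Fm (Edge n)) (hφ : ∀ x, φ.eval x = true ↔ Ham x) (hsz : φ.size ≤ 2 ^ (55 + 10 * s)) :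
    (4 ^ s) ^ 5 ≤ 64 * 195 ^ 2 * j ^ 2 * s ^ 7 * 2 ^ Nat.log (j + 1) (2 ^ (55 + 10 * s)) *
      φ.size := by
  set T := 4 ^ s with hT
  set G := 2 ^ Nat.log (j + 1) (2 ^ (55 + 10 * s)) with hG
  have hsT : s < T := Nat.lt_pow_self (by norm_num)
  set a := T / s with ha
  have ha1 : 1 ≤ a := Nat.div_pos hsT.le hs
  have ha2 : a * s ≤ T := Nat.div_mul_le_self _ _
  have ha3 : T ≤ 2 * a * s := by
    have := Nat.lt_div_mul_add (a := T) (b := s) hs
    nlinarith
  have hc : Fintype.card (Ad s) = 4 * s := by simp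
  obtain ⟨h, hh⟩ := exists_hard (V := Ad s) (by omega)
  rw [hc] at hh
  have hT2 : 2 ^ (4 * s) = T ^ 2 := by
    rw [hT, ← pow_mul, show (4 : ℕ) = 2 ^ 2 by norm_num, ← pow_mul]; congr 1; ring
  have hT4 : 4 ≤ T := by
    calc 4 = 4 ^ 1 := by norm_num
      _ ≤ T := Nat.pow_le_pow_right (by norm_num) hs
  have h64 : (16 * (4 * s)) ^ L h ≤ 2 ^ ((s + 6) * L h) := by
    rw [pow_mul]
    refine Nat.pow_le_pow_left ?_ _
    have : s < 2 ^ s := Nat.lt_two_pow_self
    rw [pow_add]; omega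
  have hL1 : T ^ 2 ≤ (s + 6) * L h + 2 := by
    rw [hT2] at hh
    refine (Nat.pow_le_pow_iff_right (a := 2) (by norm_num)).1 ?_
    have := Nat.two_pow_pos ((s + 6) * L h)
    rw [pow_add]; omega
  have hL2 : 2 ≤ L h := by
    by_contra hcon
    have : (s + 6) * L h ≤ (s + 6) * 1 := Nat.mul_le_mul_left _ (by omega)
    nlinarith
  have hL3 : T ^ 2 ≤ 8 * s * L h := by nlinarith
  obtain ⟨ψ, h1, h2⟩ := exists_small s a n ha1 (by omega) φ hφ h
  have hN := H9.card_edge n
  have hN2 : 40000 * T ^ 2 ≤ Fintype.card (Edge n) := by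
    have e1 : 400 * T * (200 * T) ≤ n * (n - 1) := Nat.mul_le_mul hn (by omega)
    change 2 * Fintype.card (Edge n) = _ at hN
    nlinarith
  have h3 : ψ.size * (2500 * T) ≤ φ.size := by
    refine Nat.le_of_mul_le_mul_right (c := 16 * T) ?_ (by omega)
    calc ψ.size * (2500 * T) * (16 * T) = ψ.size * (40000 * T ^ 2) := by ring
      _ ≤ ψ.size * Fintype.card (Edge n) := Nat.mul_le_mul_left _ hN2
      _ ≤ φ.size * (16 * s * a) := h2
      _ ≤ _ := Nat.mul_le_mul_left _ (by rw [mul_assoc, mul_comm s a]; omega)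
  obtain ⟨χ, k1, k2, k3⟩ := balance_pow j (55 + 10 * s) hj ψ
    (((Nat.le_mul_of_pos_right _ (by omega)).trans h3).trans hsz)
  have k4 := xor_comp (by omega) ha1 h hL2 χ (fun z => by rw [k1, h1]) _
    (by have : 1 ≤ j * (55 + 10 * s) := Nat.mul_pos hj (by omega); omega) k2
  rw [hc] at k4
  have k5 : 3 * (j * (55 + 10 * s)) ≤ 195 * j * s := by nlinarith
  have k6 : L h * a ^ 2 ≤ 288 * (195 * j * s) ^ 2 * (4 * s) ^ 2 * (ψ.size * G) :=
    k4.trans (Nat.mul_le_mul (Nat.mul_le_mul_right _ (Nat.mul_le_mul_left _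
      (Nat.pow_le_pow_left k5 2))) k3)
  refine Nat.le_of_mul_le_mul_left (c := 2500) ?_ (by norm_num)
  calc 2500 * T ^ 5 = T ^ 2 * T ^ 2 * (2500 * T) := by ring
    _ ≤ 8 * s * L h * (2 * a * s) ^ 2 * (2500 * T) :=
        Nat.mul_le_mul_right _ (Nat.mul_le_mul hL3 (Nat.pow_le_pow_left ha3 2))
    _ = 32 * s ^ 3 * (L h * a ^ 2) * (2500 * T) := by ring
    _ ≤ 32 * s ^ 3 * (288 * (195 * j * s) ^ 2 * (4 * s) ^ 2 * (ψ.size * G)) * (2500 * T) :=
        Nat.mul_le_mul_right _ (Nat.mul_le_mul_left _ k6)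
    _ = 147456 * (195 ^ 2 * j ^ 2 * s ^ 7 * G) * (ψ.size * (2500 * T)) := by ring
    _ ≤ 160000 * (195 ^ 2 * j ^ 2 * s ^ 7 * G) * φ.size :=
        Nat.mul_le_mul (Nat.mul_le_mul_right _ (by norm_num)) h3
    _ = _ := by ring

theorem formula_bound (ε : ℝ) (hε : 0 < ε) : ∃ n₀ : ℕ, ∀ n, n₀ ≤ n → ∀ φ : Fm (Edge n),
    (∀ x, φ.eval x = true ↔ Ham x) → (n : ℝ) ^ (5 - ε) ≤ φ.size := by
  obtain ⟨m, hm⟩ := exists_nat_ge (10 / ε)
  have hm0 : (0 : ℝ) < m := lt_of_lt_of_le (by positivity) hm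
  have hm1 : 1 ≤ m := by exact_mod_cast hm0
  obtain ⟨j, hj⟩ : ∃ j, 2 ^ m = j + 1 := ⟨2 ^ m - 1, by have := Nat.two_pow_pos m; omega⟩
  have hj1 : 1 ≤ j := by
    have : m < 2 ^ m := Nat.lt_two_pow_self
    omega
  set r : ℝ := 2 ^ ε with hr
  have hr1 : 1 < r := Real.one_lt_rpow (by norm_num) hε
  have hrm : (2 : ℝ) ^ 10 ≤ r ^ m := by
    rw [hr, ← Real.rpow_natCast, ← Real.rpow_natCast, ← Real.rpow_mul (by norm_num)]
    refine Real.rpow_le_rpow_of_exponent_le (by norm_num) ?_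
    rw [div_le_iff₀ hε] at hm
    push_cast
    linarith
  set C : ℝ := 1600 ^ 5 * (64 * 195 ^ 2 * j ^ 2 * 2 ^ 55) with hC
  have hj0 : (0 : ℝ) < j := by exact_mod_cast hj1
  have hC0 : 0 < C := by positivity
  obtain ⟨s0, hs0⟩ := Filter.eventually_atTop.1
    ((tendsto_pow_const_div_const_pow_of_one_lt 7 hr1).eventually
      (gt_mem_nhds (show (0 : ℝ) < 1 / C by positivity)))
  refine ⟨400 * 4 ^ (s0 + 1), fun n hn φ hφ => ?_⟩
  set s := Nat.log 4 (n / 400) with hs
  have hp : 4 ^ (s0 + 1) ≤ n / 400 := (Nat.le_div_iff_mul_le (by norm_num)).2 (by omega)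
  have hs1 : s0 + 1 ≤ s := Nat.le_log_of_pow_le (by norm_num) hp
  have hp0 : 0 < 4 ^ (s0 + 1) := by positivity
  have h1 : 400 * 4 ^ s ≤ n := by
    have := Nat.pow_log_le_self 4 (x := n / 400) (by omega)
    rw [← hs] at this
    omega
  have h2 : n ≤ 1600 * 4 ^ s := by
    have := Nat.lt_pow_succ_log_self (b := 4) (by norm_num) (n / 400)
    rw [← hs, pow_succ] at this
    omega
  have hT0 : 0 < 4 ^ s := by positivity
  have hn1 : (1 : ℝ) ≤ n := by exact_mod_cast (show 1 ≤ n by omega)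
  have hn5 : (n : ℝ) ^ (5 - ε) = n ^ 5 / n ^ ε := by
    rw [Real.rpow_sub (by linarith)]; norm_cast
  by_cases hsz : φ.size ≤ 2 ^ (55 + 10 * s)
  swap
  · have e1 : n ^ 5 ≤ φ.size := by
      calc n ^ 5 ≤ (2 ^ 11 * 4 ^ s) ^ 5 := Nat.pow_le_pow_left (by omega) 5
        _ = 2 ^ (55 + 10 * s) := by
            rw [show (4 : ℕ) = 2 ^ 2 by norm_num, ← pow_mul, ← pow_add, ← pow_mul]
            congr 1; ring
        _ ≤ _ := by omega
    have e2 : (n : ℝ) ^ 5 ≤ φ.size := by exact_mod_cast e1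
    rw [hn5]
    exact (div_le_self (by positivity) (Real.one_le_rpow hn1 hε.le)).trans e2
  have k1 := explicit_bound j s n hj1 (by omega) h1 φ hφ hsz
  set G := 2 ^ Nat.log (j + 1) (2 ^ (55 + 10 * s)) with hG
  have k2 : G ^ m ≤ 2 ^ (55 + 10 * s) := by
    rw [hG, ← pow_mul, mul_comm, pow_mul, hj]
    exact Nat.pow_log_le_self _ (by positivity)
  have hr0 : 0 < r := by linarith
  have k3 : (G : ℝ) ≤ 2 ^ 55 * r ^ s := by
    refine le_of_pow_le_pow_left₀ (n := m) (by omega) (by positivity) ?_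
    calc (G : ℝ) ^ m ≤ 2 ^ (55 + 10 * s) := by exact_mod_cast k2
      _ = 2 ^ 55 * (2 ^ 10) ^ s := by rw [pow_add, pow_mul]
      _ ≤ (2 ^ 55) ^ m * (r ^ m) ^ s :=
          mul_le_mul (le_self_pow₀ (by norm_num) (by omega))
            (pow_le_pow_left₀ (by positivity) hrm s) (by positivity) (by positivity)
      _ = _ := by rw [mul_pow, ← pow_mul r, ← pow_mul r, mul_comm m s]
  have k4 : C * s ^ 7 ≤ r ^ s := by
    have := hs0 s (by omega)
    rw [div_lt_div_iff₀ (by positivity) hC0] at this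
    linarith
  have k5 : r ^ s * r ^ s ≤ (n : ℝ) ^ ε := by
    have e1 : r ^ s * r ^ s = ((4 ^ s : ℕ) : ℝ) ^ ε := by
      rw [← mul_pow, hr, ← Real.mul_rpow (by norm_num) (by norm_num), Nat.cast_pow,
        ← Real.rpow_natCast, ← Real.rpow_natCast, ← Real.rpow_mul (by norm_num),
        ← Real.rpow_mul (by norm_num), mul_comm ε]
      norm_num
    rw [e1]
    exact Real.rpow_le_rpow (by positivity) (by exact_mod_cast (show 4 ^ s ≤ n by omega)) hε.le
  rw [hn5, div_le_iff₀ (by positivity)]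
  have k6 : (((4 ^ s : ℕ) : ℝ)) ^ 5 ≤ 64 * 195 ^ 2 * j ^ 2 * s ^ 7 * G * φ.size := by
    exact_mod_cast k1
  calc (n : ℝ) ^ 5 ≤ (1600 * ((4 ^ s : ℕ) : ℝ)) ^ 5 :=
        pow_le_pow_left₀ (by positivity) (by exact_mod_cast h2) 5
    _ = 1600 ^ 5 * ((4 ^ s : ℕ) : ℝ) ^ 5 := by rw [mul_pow]
    _ ≤ 1600 ^ 5 * (64 * 195 ^ 2 * j ^ 2 * s ^ 7 * (2 ^ 55 * r ^ s) * φ.size) := by
        refine mul_le_mul_of_nonneg_left (k6.trans ?_) (by positivity)
        gcongr
    _ = φ.size * (C * s ^ 7 * r ^ s) := by rw [hC]; ring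
    _ ≤ φ.size * (r ^ s * r ^ s) := by gcongr
    _ ≤ _ := by gcongr

end Pool.Agent.MP_6b3410_lc.H19
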