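import Mathlib
import Pool.Agent.MP_6b3410_lc.H5.Main

/-!
Circuits with few non-monotone gates: a random chain of sparse noise steps together with the
approximation method.
-/

open Finset

namespace Pool.Agent.MP_6b3410_lc.H19

open Classical Pool.Agent.MP_6b3410_lc.H5

variable {X : Type*} [Fintype X] [DecidableEq X]

/-- a binary Boolean function is monotone -/
def Mon2 (G : Bool → Bool → Bool) : Prop :=
  ∀ x x' y y' : Bool, (x = true → x' = true) → (y = true → y' = true) → G x y = true →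
    G x' y' = true

/-- `u` lists the gate values of the circuit with gate functions `G` on the input `x` -/
def Sol {ι : Type*} {s : ℕ} (G : Fin s → Bool → Bool → Bool) (a b : Fin s → ι ⊕ Fin s)
    (x : ι → Bool) (u : Fin s → Bool) : Prop :=
  ∀ g, u g = G g (Sum.elim x u (a g)) (Sum.elim x u (b g))

section circ

variable {ι : Type*} {s : ℕ} {a b : Fin s → ι ⊕ Fin s}

lemma exists_sol (hac : ∀ g j : Fin s, (a g = Sum.inr j → j < g) ∧ (b g = Sum.inr j → j < g))
    (G : Fin s → Bool → Bool → Bool) (x : ι → Bool) : ∃ u, Sol G a b x u := by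
  refine exists_fix (fun u g => G g (Sum.elim x u (a g)) (Sum.elim x u (b g))) ?_
  intro u v g huv
  have e1 : Sum.elim x u (a g) = Sum.elim x v (a g) := by
    rcases h : a g with i | j
    · rfl
    · exact huv j ((hac g j).1 h)
  have e2 : Sum.elim x u (b g) = Sum.elim x v (b g) := by
    rcases h : b g with i | j
    · rfl
    · exact huv j ((hac g j).2 h)
  simp only [e1, e2]

lemma sol_agree (hac : ∀ g j : Fin s, (a g = Sum.inr j → j < g) ∧ (b g = Sum.inr j → j < g))
    {G G' : Fin s → Bool → Bool → Bool} {x : ι → Bool} {u v : Fin s → Bool}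
    (hu : Sol G a b x u) (hv : Sol G' a b x v) (g : Fin s) :
    (∀ j, j ≤ g → G j = G' j) → u g = v g := by
  induction g using WellFoundedLT.induction with
  | ind g ih =>
    intro hg
    have e : ∀ j, j < g → u j = v j := fun j hj =>
      ih j hj fun i hi => hg i (hi.trans hj.le)
    have e1 : Sum.elim x u (a g) = Sum.elim x v (a g) := by
      rcases h : a g with i | j
      · rfl
      · exact e j ((hac g j).1 h)
    have e2 : Sum.elim x u (b g) = Sum.elim x v (b g) := by
      rcases h : b g with i | j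
      · rfl
      · exact e j ((hac g j).2 h)
    rw [hu g, hv g, e1, e2, hg g le_rfl]

lemma sol_mono (hac : ∀ g j : Fin s, (a g = Sum.inr j → j < g) ∧ (b g = Sum.inr j → j < g))
    {G : Fin s → Bool → Bool → Bool} (hG : ∀ g, Mon2 (G g)) {x x' : ι → Bool}
    (hx : ∀ i, x i = true → x' i = true) {u v : Fin s → Bool}
    (hu : Sol G a b x u) (hv : Sol G a b x' v) (z : ι ⊕ Fin s) :
    Sum.elim x u z = true → Sum.elim x' v z = true := by
  have key : ∀ g, u g = true → v g = true := by
    intro g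
    induction g using WellFoundedLT.induction with
    | ind g ih =>
      have e1 : Sum.elim x u (a g) = true → Sum.elim x' v (a g) = true := by
        rcases h : a g with i | j
        · exact hx i
        · exact ih j ((hac g j).1 h)
      have e2 : Sum.elim x u (b g) = true → Sum.elim x' v (b g) = true := by
        rcases h : b g with i | j
        · exact hx i
        · exact ih j ((hac g j).2 h)
      rw [hu g, hv g]
      exact hG g _ _ _ _ e1 e2
  rcases z with i | j
  · exact hx i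
  · exact key j

end circ

variable {Q : Type*}

/-- a small monotone circuit in which, on every positive input, one of the nodes in `Z` is true,
has with high probability one of the nodes in `Z` true on the random input -/
theorem approx_or {ν : Finset X → ℝ} (hν : ∀ W, 0 ≤ ν W)
    {ε r : ℝ} (hε : 0 ≤ ε) (hr : 0 < r) {w : ℕ} (hw : 1 ≤ w) (hX : 1 ≤ Fintype.card X)
    (hSF : SF ν ε r (2 * w)) {P : Finset Q} (hPne : P.Nonempty) {y : Q → Finset X}
    (hP : PS P y r (2 * w)) {ι : Type*} (inp : ι → Finset X → Bool)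
    (hm : ∀ i, Mono fun W => inp i W = true) (hl : ∀ i, Loc 1 fun W => inp i W = true)
    {s : ℕ} (G : Fin s → Bool → Bool → Bool) (hG : ∀ g, Mon2 (G g)) (a b : Fin s → ι ⊕ Fin s)
    (hac : ∀ g j : Fin s, (a g = Sum.inr j → j < g) ∧ (b g = Sum.inr j → j < g))
    (val : Finset X → Fin s → Bool) (hval : ∀ W, Sol G a b (fun i => inp i W) (val W))
    (Z : ι ⊕ Fin s → Prop)
    (hpos : ∀ π ∈ P, ∃ z, Z z ∧ Sum.elim (fun i => inp i (y π)) (val (y π)) z = true)
    (hs : (s : ℝ) + 1 ≤ 4 ^ w) :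
    pr ν (fun U => ¬ ∃ z, Z z ∧ Sum.elim (fun i => inp i U) (val U) z = true) ≤
      (s + 1) * (ε * ((2 * w + 1) * Fintype.card X ^ (2 * w))) := by
  choose Ap hApm hApl hAp using approx_step hν hε hr hX hSF hP
  let src : (Fin s → Finset X → Prop) → ι ⊕ Fin s → Finset X → Prop :=
    fun u z => Sum.elim (fun i W => inp i W = true) u z
  let pre : (Fin s → Finset X → Prop) → Fin s → Finset X → Prop := fun u g W =>
    G g (decide (src u (a g) W)) (decide (src u (b g) W)) = true
  obtain ⟨ap, hap⟩ := exists_fix (β := Finset X → Prop) (fun u g => Ap (pre u g)) (by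
    intro u v g huv
    have e1 : src u (a g) = src v (a g) := by
      rcases h : a g with i | j
      · rfl
      · exact huv j ((hac g j).1 h)
    have e2 : src u (b g) = src v (b g) := by
      rcases h : b g with i | j
      · rfl
      · exact huv j ((hac g j).2 h)
    simp only [pre, e1, e2])
  have hsm : ∀ z, Mono (src ap z) := by
    rintro (i | j)
    · exact hm i
    · change Mono (ap j); rw [hap j]; exact hApm _
  have hsl : ∀ z, Loc w (src ap z) := by
    rintro (i | j)
    · intro W hW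
      obtain ⟨A, h1, h2, h3⟩ := hl i W hW
      exact ⟨A, h1, h2.trans hw, h3⟩
    · change Loc w (ap j); rw [hap j]; exact hApl _
  have hpm : ∀ g, Mono (pre ap g) := by
    intro g A B hAB
    refine hG g _ _ _ _ ?_ ?_ <;> simp only [decide_eq_true_eq] <;> exact hsm _ _ _ hAB
  have hloc : ∀ z W, ∃ A, A ⊆ W ∧ A.card ≤ w ∧ (src ap z W → src ap z A) := by
    intro z W
    by_cases h : src ap z W
    · obtain ⟨A, h1, h2, h3⟩ := hsl _ _ h
      exact ⟨A, h1, h2, fun _ => h3⟩
    · exact ⟨∅, Finset.empty_subset _, by simp, fun h' => absurd h' h⟩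
  have hpl : ∀ g, Loc (2 * w) (pre ap g) := by
    intro g W hW
    obtain ⟨A, hA, hA', hA''⟩ := hloc (a g) W
    obtain ⟨B, hB, hB', hB''⟩ := hloc (b g) W
    refine ⟨A ∪ B, Finset.union_subset hA hB, (Finset.card_union_le _ _).trans (by omega), ?_⟩
    refine hG g _ _ _ _ ?_ ?_ hW <;> simp only [decide_eq_true_eq]
    · exact fun h => hsm _ _ _ Finset.subset_union_left (hA'' h)
    · exact fun h => hsm _ _ _ Finset.subset_union_right (hB'' h)
  have hprop := fun g => hAp (pre ap g) (hpm g) (hpl g)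
  simp only [← hap] at hprop
  have hnegc : ∀ W, (∀ g, ap g W → pre ap g W) → ∀ z, src ap z W →
      Sum.elim (fun i => inp i W) (val W) z = true := by
    intro W hW
    have key : ∀ g, ap g W → val W g = true := by
      intro g
      induction g using WellFoundedLT.induction with
      | ind g ih =>
        intro hg
        have e1 : src ap (a g) W → Sum.elim (fun i => inp i W) (val W) (a g) = true := by
          rcases h : a g with i | j
          · exact id
          · exact ih j ((hac g j).1 h)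
        have e2 : src ap (b g) W → Sum.elim (fun i => inp i W) (val W) (b g) = true := by
          rcases h : b g with i | j
          · exact id
          · exact ih j ((hac g j).2 h)
        rw [hval W g]
        refine hG g _ _ _ _ ?_ ?_ (hW g hg) <;> simp only [decide_eq_true_eq]
        exacts [e1, e2]
    rintro (i | j)
    · exact id
    · exact key j
  have hposc : ∀ W, (∀ g, pre ap g W → ap g W) → ∀ z,
      Sum.elim (fun i => inp i W) (val W) z = true → src ap z W := by
    intro W hW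
    have key : ∀ g, val W g = true → ap g W := by
      intro g
      induction g using WellFoundedLT.induction with
      | ind g ih =>
        intro hg
        have e1 : Sum.elim (fun i => inp i W) (val W) (a g) = true → src ap (a g) W := by
          rcases h : a g with i | j
          · exact id
          · exact ih j ((hac g j).1 h)
        have e2 : Sum.elim (fun i => inp i W) (val W) (b g) = true → src ap (b g) W := by
          rcases h : b g with i | j
          · exact id
          · exact ih j ((hac g j).2 h)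
        refine hW g ?_
        rw [hval W g] at hg
        refine hG g _ _ _ _ ?_ ?_ hg <;> simp only [decide_eq_true_eq]
        exacts [e1, e2]
    rintro (i | j)
    · exact id
    · exact key j
  -- the final unbounded OR
  let f : Finset X → Prop := fun W => ∃ z, Z z ∧ src ap z W
  have hfm : Mono f := by
    rintro A B hAB ⟨z, hz, h⟩
    exact ⟨z, hz, hsm _ _ _ hAB h⟩
  have hfl : Loc (2 * w) f := by
    rintro W ⟨z, hz, h⟩
    obtain ⟨A, h1, h2, h3⟩ := hsl _ _ h
    exact ⟨A, h1, by omega, z, hz, h3⟩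
  obtain ⟨hf0, hf1, hf2⟩ := hAp f hfm hfl
  have h0 : Ap f ∅ := by
    by_contra hcon
    have h0 := hf0.resolve_left hcon
    have h1 : P ⊆ ((P.filter fun π => Ap f (y π)) ∪ (P.filter fun π => f (y π) ∧ ¬ Ap f (y π))) ∪
        Finset.univ.biUnion fun g => P.filter fun π => pre ap g (y π) ∧ ¬ ap g (y π) := by
      intro π hπ
      rw [Finset.mem_union, Finset.mem_union]
      by_cases h : ∀ g, pre ap g (y π) → ap g (y π)
      · left
        obtain ⟨z, hz, hz'⟩ := hpos π hπ
        by_cases h' : Ap f (y π)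
        · exact Or.inl (Finset.mem_filter.2 ⟨hπ, h'⟩)
        · exact Or.inr (Finset.mem_filter.2 ⟨hπ, ⟨z, hz, hposc _ h z hz'⟩, h'⟩)
      · right
        push Not at h
        obtain ⟨g, hg⟩ := h
        exact Finset.mem_biUnion.2 ⟨g, Finset.mem_univ _, Finset.mem_filter.2 ⟨hπ, hg⟩⟩
    have h2 : (P.card : ℝ) ≤ ((P.filter fun π => Ap f (y π)).card +
        (P.filter fun π => f (y π) ∧ ¬ Ap f (y π)).card) + ∑ g : Fin s,
        ((P.filter fun π => pre ap g (y π) ∧ ¬ ap g (y π)).card : ℝ) := by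
      exact_mod_cast (Finset.card_le_card h1).trans ((Finset.card_union_le _ _).trans
        (Nat.add_le_add (Finset.card_union_le _ _) Finset.card_biUnion_le))
    have h3 := h2.trans (add_le_add (add_le_add h0 hf2)
      (Finset.sum_le_sum fun g _ => (hprop g).2.2))
    rw [Finset.sum_const, Finset.card_univ, Fintype.card_fin, nsmul_eq_mul] at h3
    have h4 : (0 : ℝ) < P.card := by exact_mod_cast hPne.card_pos
    have h5 : ((s : ℝ) + 1) * (1 / 4) ^ w ≤ 1 := by
      rw [one_div, inv_pow, ← div_eq_mul_inv, div_le_one (by positivity)]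
      exact hs
    have h6 : (P.card : ℝ) / 3 + P.card * ((1 / 4) ^ w / 3) + s * (P.card * ((1 / 4) ^ w / 3)) =
        P.card / 3 + P.card * ((s + 1) * (1 / 4) ^ w) / 3 := by ring
    rw [h6] at h3
    nlinarith
  calc _ ≤ pr ν (fun W => (Ap f W ∧ ¬ f W) ∨
        ∃ g ∈ (Finset.univ : Finset (Fin s)), ap g W ∧ ¬ pre ap g W) := by
        refine pr_mono hν fun W hW => ?_
        by_cases h : ∀ g, ap g W → pre ap g W
        · left
          refine ⟨hApm f _ _ (Finset.empty_subset W) h0, ?_⟩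
          rintro ⟨z, hz, hz'⟩
          exact hW ⟨z, hz, hnegc W h z hz'⟩
        · right
          push Not at h
          obtain ⟨g, hg⟩ := h
          exact ⟨g, Finset.mem_univ _, hg⟩
    _ ≤ _ := pr_or_le hν _ _
    _ ≤ ε * ((2 * w + 1) * Fintype.card X ^ (2 * w)) +
        ∑ _g : Fin s, ε * ((2 * w + 1) * Fintype.card X ^ (2 * w)) :=
        add_le_add hf1 ((pr_exists_le hν _ _).trans (Finset.sum_le_sum fun g _ => (hprop g).2.1))
    _ = _ := by
        rw [Finset.sum_const, Finset.card_univ, Fintype.card_fin, nsmul_eq_mul]; ring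

lemma ex_succ (p : ℝ) (m : ℕ) (f : Finset X → ℝ) :
    ∑ Z : Finset X, nu p (m + 1) Z * f Z =
      ∑ V : Finset X, mu p V * ∑ W : Finset X, nu p m W * f (V ∪ W) := by
  simp only [nu, Finset.sum_mul, Finset.mul_sum]
  rw [Finset.sum_comm]
  refine Finset.sum_congr rfl fun V _ => ?_
  rw [Finset.sum_comm]
  refine Finset.sum_congr rfl fun W _ => ?_
  simp only [ite_mul, zero_mul]
  rw [Finset.sum_ite_eq]
  simp [mul_assoc]

lemma pr_add (p : ℝ) (m' m : ℕ) (E : Finset X → Prop) :
    pr (nu p (m' + m)) E = ∑ W : Finset X, nu p m' W * pr (nu p m) (fun U => E (W ∪ U)) := by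
  induction m' generalizing E with
  | zero =>
    rw [Finset.sum_eq_single ∅]
    · simp [nu]
    · intro W _ hW; simp [nu, hW]
    · simp
  | succ m' ih =>
    rw [show m' + 1 + m = (m' + m) + 1 by ring, pr_succ, ex_succ]
    refine Finset.sum_congr rfl fun V _ => ?_
    rw [ih]
    simp only [Finset.union_assoc]

omit [DecidableEq X] in
lemma pr_eq_sum (ν : Finset X → ℝ) (E : Finset X → Prop) :
    pr ν E = ∑ W : Finset X, ν W * (if E W then 1 else 0) := by
  rw [pr]
  refine Finset.sum_congr rfl fun W _ => ?_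
  split_ifs <;> simp

omit [DecidableEq X] in
lemma pr_not (ν : Finset X → ℝ) (E : Finset X → Prop) :
    pr ν (fun W => ¬ E W) = pr ν (fun _ => True) - pr ν E := by
  rw [pr, pr, pr, ← Finset.sum_sub_distrib]
  refine Finset.sum_congr rfl fun W _ => ?_
  by_cases h : E W <;> simp [h]

/-- along a random increasing chain every monotone function changes at most once -/
theorem chain_bound {p : ℝ} (h0 : 0 ≤ p) (h1 : p ≤ 1) (m J : ℕ) {I : Type*} (S : Finset I)
    (M : I → Finset X → Prop) (hM : ∀ i, Mono (M i)) (F : Finset X → Prop)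
    (hF : ∀ j < J, pr (nu p (j * m)) F ≤ 1 / 2)
    (hflip : ∀ W, ¬ F W →
      1 / 2 ≤ pr (nu p m) (fun U => ∃ i ∈ S, ¬ M i W ∧ M i (W ∪ U))) :
    (J : ℝ) ≤ 4 * S.card := by
  have step : ∀ j i, pr (nu p ((j + 1) * m)) (M i) - pr (nu p (j * m)) (M i) =
      ∑ W : Finset X, nu p (j * m) W * pr (nu p m) (fun U => ¬ M i W ∧ M i (W ∪ U)) := by
    intro j i
    rw [show (j + 1) * m = j * m + m by ring, pr_add, pr_eq_sum (nu p (j * m)),
      ← Finset.sum_sub_distrib]
    refine Finset.sum_congr rfl fun W _ => ?_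
    rw [← mul_sub]
    congr 1
    by_cases h : M i W
    · have e : (fun U => M i (W ∪ U)) = fun _ => True :=
        funext fun U => eq_true (hM i _ _ Finset.subset_union_left h)
      rw [e, pr_true, pr_false _ (fun U hU => hU.1 h)]
      simp [h]
    · simp [h]
  have one : ∀ j < J, (1 / 4 : ℝ) ≤
      ∑ i ∈ S, (pr (nu p ((j + 1) * m)) (M i) - pr (nu p (j * m)) (M i)) := by
    intro j hj
    simp only [step]
    rw [Finset.sum_comm]
    have e1 : (1 / 2 : ℝ) ≤ pr (nu p (j * m)) (fun W => ¬ F W) := by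
      rw [pr_not, pr_true]; linarith [hF j hj]
    calc (1 / 4 : ℝ) ≤ pr (nu p (j * m)) (fun W => ¬ F W) * (1 / 2) := by linarith
      _ ≤ _ := by
          rw [pr_eq_sum, Finset.sum_mul]
          refine Finset.sum_le_sum fun W _ => ?_
          rw [← Finset.mul_sum, mul_assoc]
          refine mul_le_mul_of_nonneg_left ?_ (nu_nonneg h0 h1 _ W)
          by_cases h : F W
          · rw [if_neg (not_not.2 h), zero_mul]
            exact Finset.sum_nonneg fun i _ => pr_nonneg (nu_nonneg h0 h1 m) _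
          · rw [if_pos h, one_mul]
            exact (hflip W h).trans (pr_exists_le (nu_nonneg h0 h1 m) _ _)
  have all := Finset.sum_le_sum (s := Finset.range J) fun j hj => one j (Finset.mem_range.1 hj)
  rw [Finset.sum_comm, Finset.sum_const, Finset.card_range, nsmul_eq_mul] at all
  have tel : ∀ i ∈ S, ∑ j ∈ Finset.range J,
      (pr (nu p ((j + 1) * m)) (M i) - pr (nu p (j * m)) (M i)) ≤ 1 := by
    intro i _
    rw [Finset.sum_range_sub (fun j => pr (nu p (j * m)) (M i))]
    have e1 : pr (nu p (J * m)) (M i) ≤ 1 :=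
      (pr_mono (nu_nonneg h0 h1 _) fun _ _ => trivial).trans (pr_true p _).le
    have e2 := pr_nonneg (nu_nonneg (X := X) h0 h1 (0 * m)) (M i)
    linarith
  have := all.trans (Finset.sum_le_sum tel)
  rw [Finset.sum_const, nsmul_eq_mul] at this
  linarith

/-- replace the gates in `T` by constants: true on `S`, false elsewhere -/
noncomputable def fixG {s : ℕ} (G : Fin s → Bool → Bool → Bool) (T S : Finset (Fin s)) :
    Fin s → Bool → Bool → Bool :=
  fun g => if g ∈ T then (fun _ _ => decide (g ∈ S)) else G g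

theorem few_neg {p : ℝ} (h0 : 0 ≤ p) (h1 : p ≤ 1) (m J : ℕ)
    {ε r : ℝ} (hε : 0 ≤ ε) (hr : 0 < r) {w : ℕ} (hw : 1 ≤ w) (hX : 1 ≤ Fintype.card X)
    (hSF : SF (nu (X := X) p m) ε r (2 * w)) {P : Finset Q} (hPne : P.Nonempty)
    {y : Q → Finset X} (hP : PS P y r (2 * w)) {ι : Type*} (inp : ι → Finset X → Bool)
    (hm : ∀ i, Mono fun W => inp i W = true) (hl : ∀ i, Loc 1 fun W => inp i W = true)
    (F : Finset X → Prop) (hpos : ∀ π ∈ P, ∀ W, F (W ∪ y π))
    (hneg : ∀ j < J, pr (nu p (j * m)) F ≤ 1 / 2)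
    {s : ℕ} (G : Fin s → Bool → Bool → Bool) (T : Finset (Fin s)) (hG : ∀ g ∉ T, Mon2 (G g))
    (a b : Fin s → ι ⊕ Fin s) (o : Fin s)
    (hac : ∀ g j : Fin s, (a g = Sum.inr j → j < g) ∧ (b g = Sum.inr j → j < g))
    (hF : ∀ W u, Sol G a b (fun i => inp i W) u → (u o = true ↔ F W))
    (hs : (s : ℝ) + 1 ≤ 4 ^ w)
    (hs' : (s + 1) * (ε * ((2 * w + 1) * Fintype.card X ^ (2 * w))) ≤ 1 / 2) :
    (J : ℝ) ≤ 12 * 2 ^ T.card := by
  have hGm : ∀ S g, Mon2 (fixG G T S g) := by
    intro S g
    unfold fixG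
    split_ifs with h
    · exact fun _ _ _ _ _ _ h => h
    · exact hG g h
  choose val hval using fun (S : Finset (Fin s)) (W : Finset X) =>
    exists_sol hac (fixG G T S) (fun i => inp i W)
  let src : Finset (Fin s) → Finset X → ι ⊕ Fin s → Bool := fun S W z =>
    Sum.elim (fun i => inp i W) (val S W) z
  have hsm : ∀ S z A B, A ⊆ B → src S A z = true → src S B z = true := fun S z A B hAB =>
    sol_mono hac (hGm S) (fun i => hm i A B hAB) (hval S A) (hval S B) z
  let c : Bool → Fin s → ι ⊕ Fin s := fun d => if d then a else b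
  let M : Finset (Fin s) × Option Bool → Finset X → Prop := fun i W =>
    match i.2 with
    | none => src i.1 W (Sum.inr o) = true
    | some d => ∃ g ∈ i.1, (∀ j ∈ i.1, j ≤ g) ∧ src i.1 W (c d g) = true
  have hMm : ∀ i, Mono (M i) := by
    rintro ⟨S, _ | d⟩ A B hAB
    · exact hsm S _ A B hAB
    · rintro ⟨g, h1, h2, h3⟩
      exact ⟨g, h1, h2, hsm S _ A B hAB h3⟩
  have hmain := chain_bound h0 h1 m J (T.powerset ×ˢ (Finset.univ : Finset (Option Bool))) M hMm F
    hneg (by
    intro W hW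
    obtain ⟨u, hu⟩ := exists_sol hac G (fun i => inp i W)
    set S := T.filter fun g => u g = true with hS
    have hu' : Sol (fixG G T S) a b (fun i => inp i W) u := by
      intro g
      unfold fixG
      split_ifs with h
      · simp [hS, h]
      · exact hu g
    have huv : val S W = u := funext fun g => sol_agree hac (hval S W) hu' g fun _ _ => rfl
    let Z : ι ⊕ Fin s → Prop := fun z =>
      (z = Sum.inr o ∨ ∃ g ∈ T, ∃ d, z = c d g) ∧ ¬ src S W z = true
    have h2 := approx_or (nu_nonneg h0 h1 m) hε hr hw hX hSF hPne hP (fun i U => inp i (W ∪ U))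
      (fun i A B hAB => hm i _ _ (Finset.union_subset_union_right hAB))
      (fun i U hU => by
        obtain ⟨A, hA, hA', hA''⟩ := hl i _ hU
        refine ⟨A \ W, fun x hx => ?_, (Finset.card_le_card Finset.sdiff_subset).trans hA',
          hm i _ _ (fun x hx => ?_) hA''⟩
        · exact (Finset.mem_union.1 (hA (Finset.mem_sdiff.1 hx).1)).resolve_left
            (Finset.mem_sdiff.1 hx).2
        · by_cases h : x ∈ W <;> simp [h, hx])
      (fixG G T S) (hGm S) a b hac (fun U => val S (W ∪ U)) (fun U => hval S (W ∪ U)) Z (by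
        intro π hπ
        by_contra hcon
        have e : ∀ z, (z = Sum.inr o ∨ ∃ g ∈ T, ∃ d, z = c d g) →
            src S (W ∪ y π) z = src S W z := by
          intro z hz
          by_cases h : src S W z = true
          · rw [h, hsm S z _ _ Finset.subset_union_left h]
          · have h' : ¬ src S (W ∪ y π) z = true := fun h' => hcon ⟨z, ⟨hz, h⟩, h'⟩
            rw [Bool.not_eq_true] at h h'
            rw [h, h']
        have hsol : Sol G a b (fun i => inp i (W ∪ y π)) (val S (W ∪ y π)) := by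
          intro g
          by_cases h : g ∈ T
          · have e1 := e (a g) (Or.inr ⟨g, h, true, rfl⟩)
            have e2 := e (b g) (Or.inr ⟨g, h, false, rfl⟩)
            simp only [src] at e1 e2
            rw [e1, e2, huv, ← hu g, hval S (W ∪ y π) g, hu' g]
            simp only [fixG, if_pos h]
          · have := hval S (W ∪ y π) g
            simpa only [fixG, if_neg h] using this
        have e3 := (hF _ _ hsol).2 (hpos π hπ W)
        have e4 := e _ (Or.inl rfl)
        simp only [src, Sum.elim_inr] at e4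
        rw [e3, huv] at e4
        exact hW ((hF W u hu).1 e4.symm)) hs
    rw [pr_not, pr_true] at h2
    refine le_trans (by linarith) (pr_mono (nu_nonneg h0 h1 m)
      (E := fun U => ∃ z, Z z ∧ src S (W ∪ U) z = true) ?_)
    rintro U ⟨z, ⟨hz | ⟨g, hg, d, hz⟩, hz'⟩, hz''⟩
    · subst hz
      exact ⟨(S, none), by simp [hS], hz', hz''⟩
    · subst hz
      set S' := insert g (S.filter fun j => j < g) with hS'
      have e : ∀ W', src S' W' (c d g) = src S W' (c d g) := by
        intro W'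
        rcases h : c d g with i | j
        · rfl
        · have hj : j < g := by
            cases d
            · exact (hac g j).2 h
            · exact (hac g j).1 h
          refine sol_agree hac (hval S' W') (hval S W') j fun i hi => ?_
          have hi' : i < g := lt_of_le_of_lt hi hj
          simp [fixG, hS', hi', hi'.ne]
      have hmax : ∀ j ∈ S', j ≤ g := by
        intro j hj
        rcases Finset.mem_insert.1 hj with h | h
        · exact h.le
        · exact (Finset.mem_filter.1 h).2.le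
      refine ⟨(S', some d), ?_, ?_, g, Finset.mem_insert_self _ _, hmax, (e _).trans hz''⟩
      · simp only [Finset.mem_product, Finset.mem_powerset, Finset.mem_univ, and_true]
        exact Finset.insert_subset hg ((Finset.filter_subset _ _).trans (Finset.filter_subset _ _))
      · rintro ⟨g', h1, h2, h3⟩
        have : g' = g := le_antisymm (hmax g' h1) (h2 g (Finset.mem_insert_self _ _))
        subst this
        exact hz' ((e _).symm.trans h3))
  rw [Finset.card_product, Finset.card_powerset, Finset.card_univ, Fintype.card_option,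
    Fintype.card_bool] at hmain
  push_cast at hmain
  linarith

theorem neg_param (t w J n : ℕ) (ht : 0 < t) (hw : 0 < w) (hJ : 0 < J)
    (hA : 2 ^ 23 * t * w * J ≤ 4 ^ t) (hB : 2 ^ 11 * t ^ 4 * w * 2 ^ t ≤ n) (s : ℕ)
    (G : Fin s → Bool → Bool → Bool) (T : Finset (Fin s)) (hG : ∀ g ∉ T, Mon2 (G g))
    (a b : Fin s → ({p : Fin n × Fin n // p.1 < p.2} ⊕ Fin s)) (o : Fin s)
    (hac : ∀ g j : Fin s, (a g = Sum.inr j → j < g) ∧ (b g = Sum.inr j → j < g))
    (hF : ∀ x : {p : Fin n × Fin n // p.1 < p.2} → Bool, ∀ val : Fin s → Bool,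
      Sol G a b x val → (val o = true ↔ (SimpleGraph.fromRel
        (fun i j : Fin n => ∃ h : i < j, x ⟨(i, j), h⟩ = true)).IsHamiltonian))
    (hs : s < 2 ^ w) : J ≤ 12 * 2 ^ T.card := by
  have hA' : 2 ^ 23 * t * w ≤ 4 ^ t := le_trans (Nat.le_mul_of_pos_right _ hJ) hA
  set k := 64 * t ^ 3 * w with hk
  have hk0 : 0 < k := by positivity
  obtain ⟨φ, hφ⟩ := exists_expander k (2 * w) (Bool × Fin t) hk0 (by
    simp only [Fintype.card_prod, Fintype.card_bool, Fintype.card_fin, hk]; ring_nf; rfl)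
  obtain ⟨inp, hm, hl, hH⟩ := exists_projection φ hk0 ht n (by
    refine le_trans ?_ hB
    have : 30 * k * t * 2 ^ t = 1920 * (t ^ 4 * w * 2 ^ t) := by rw [hk]; ring
    have h2 : 2 ^ 11 * t ^ 4 * w * 2 ^ t = 2048 * (t ^ 4 * w * 2 ^ t) := by ring
    omega)
  set m := 64 * t * w with hmdef
  have hm0 : 0 < m := by positivity
  have hm1 : (1 : ℝ) ≤ m := by exact_mod_cast hm0
  have hJ1 : (1 : ℝ) ≤ J := by exact_mod_cast hJ
  set p : ℝ := 1 / (4 * m * J) with hp
  have hp0 : 0 < p := by positivity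
  have hp1 : p ≤ 1 := by rw [hp, div_le_one (by positivity)]; nlinarith
  have hpr : 1024 ≤ p * (4096 * m * J) := by rw [hp]; field_simp; norm_num
  have hX : Fintype.card (Var k t) = k * 4 ^ t := by
    simp only [Fintype.card_prod, Fintype.card_fin, Fintype.card_fun, Fintype.card_bool]
    rw [← mul_pow]
    norm_num
  have hs1 : (s : ℝ) + 1 ≤ 2 ^ w := by exact_mod_cast hs
  have hmain := few_neg (X := Var k t) hp0.le hp1 m J
    (ε := (2 * w : ℕ) * (2 / 3) ^ m) (r := 4096 * m * J) (w := w) (by positivity) (by positivity)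
    hw (by rw [hX]; exact Nat.succ_le_of_lt (by positivity))
    (fun j hj G hG hbig => by
      obtain ⟨B, h1, h2, h3⟩ := robust_sunflower hp0 hp1 hpr m j G hG hbig
      refine ⟨B, h1, h2, h3.trans (mul_le_mul_of_nonneg_right (Nat.cast_le.2 hj) (by positivity))⟩)
    (P := Finset.univ) Finset.univ_nonempty (y := yy φ)
    (ps_of_expander φ (by positivity) (by
      have : ((2 ^ 23 * t * w * J : ℕ) : ℝ) ≤ ((4 ^ t : ℕ) : ℝ) := Nat.cast_le.2 hA
      rw [hmdef]
      push_cast at this ⊢
      linarith) hφ)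
    inp hm hl (fun W => ∃ m, yy φ m ⊆ W) (fun m _ W => ⟨m, Finset.subset_union_right⟩) (by
      intro j hj
      have hν := nu_nonneg (X := Var k t) hp0.le hp1 (j * m)
      calc _ ≤ pr (nu p (j * m))
              (fun W => ∃ z ∈ (Finset.univ : Finset (Fin k → Bool)), yy φ z ⊆ W) :=
            pr_mono hν fun W ⟨z, hz⟩ => ⟨z, Finset.mem_univ _, hz⟩
        _ ≤ ∑ z : Fin k → Bool, pr (nu p (j * m)) (fun W => yy φ z ⊆ W) := pr_exists_le hν _ _
        _ ≤ ∑ _z : Fin k → Bool, (1 / 4 : ℝ) ^ k := by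
            refine Finset.sum_le_sum fun z _ => (pr_subset_le hp0.le hp1 _ _).trans ?_
            rw [card_yy]
            refine pow_le_pow_left₀ (by positivity) ?_ _
            have hj' : (j : ℝ) ≤ J := by exact_mod_cast hj.le
            rw [hp, mul_one_div, div_le_div_iff₀ (by positivity) (by norm_num)]
            push_cast
            nlinarith
        _ = (1 / 2) ^ k := by
            rw [Finset.sum_const, Finset.card_univ, Fintype.card_fun, Fintype.card_bool,
              Fintype.card_fin, nsmul_eq_mul]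
            push_cast
            rw [← mul_pow]; norm_num
        _ ≤ 1 / 2 := pow_le_of_le_one (by norm_num) (by norm_num) hk0.ne')
    G T hG a b o hac (fun W val hval => (hF _ val hval).trans (hH W))
    (hs1.trans (pow_le_pow_left₀ (by norm_num) (by norm_num) w)) (by
    rw [hX]
    have e1 : ((k * 4 ^ t : ℕ) : ℝ) ≤ 2 ^ (6 * t) := by
      have h1 : t ≤ 2 ^ t := Nat.lt_two_pow_self.le
      have h2 : k ≤ 2 ^ t * 2 ^ t * 4 ^ t := by
        calc k = t * t * (64 * t * w) := by rw [hk]; ring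
          _ ≤ 2 ^ t * 2 ^ t * 4 ^ t := by
            refine Nat.mul_le_mul (Nat.mul_le_mul h1 h1) (le_trans ?_ hA')
            exact Nat.mul_le_mul_right _ (Nat.mul_le_mul_right _ (by norm_num))
      have h3 : k * 4 ^ t ≤ 2 ^ (6 * t) := by
        calc k * 4 ^ t ≤ 2 ^ t * 2 ^ t * 4 ^ t * 4 ^ t := Nat.mul_le_mul_right _ h2
          _ = 2 ^ (6 * t) := by
            rw [show (4 : ℕ) = 2 ^ 2 by norm_num, ← pow_mul, ← pow_add, ← pow_add, ← pow_add]
            congr 1; ring
      exact_mod_cast h3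
    have e2 : ((2 * w : ℕ) : ℝ) * 2 ≤ 2 ^ (2 * w) := by
      have h1 : w ≤ 2 ^ (w - 1) := by
        have := (Nat.lt_two_pow_self (n := w - 1))
        omega
      have h2 : 2 * w * 2 ≤ 2 ^ (2 * w) := by
        calc 2 * w * 2 = 4 * w := by ring
          _ ≤ 4 * 2 ^ (w - 1) := Nat.mul_le_mul_left _ h1
          _ = 2 ^ (w - 1 + 2) := by ring
          _ ≤ _ := Nat.pow_le_pow_right (by norm_num) (by omega)
      exact_mod_cast h2
    have e3 : (2 * w + 1 : ℝ) ≤ 2 ^ (2 * w) := by
      have : 2 * w + 1 ≤ 2 ^ (2 * w) := Nat.lt_two_pow_self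
      exact_mod_cast this
    have e4 : (2 / 3 : ℝ) ^ m * 2 ^ (32 * t * w) ≤ 1 := by
      rw [show m = 2 * (32 * t * w) by rw [hmdef]; ring, pow_mul, ← mul_pow]
      exact pow_le_one₀ (by norm_num) (by norm_num)
    have e5 : (2 : ℝ) ^ w * (2 ^ (2 * w) * (2 ^ (2 * w) * (2 ^ (6 * t)) ^ (2 * w))) ≤
        2 ^ (32 * t * w) := by
      rw [← pow_mul, ← pow_add, ← pow_add, ← pow_add]
      refine pow_le_pow_right₀ (by norm_num) ?_
      nlinarith
    have e6 : (2 : ℝ) ^ w * (2 * (((2 * w : ℕ) : ℝ) * (2 / 3) ^ m *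
        ((2 * w + 1) * ((k * 4 ^ t : ℕ) : ℝ) ^ (2 * w)))) ≤ 1 := by
      calc _ = (2 / 3 : ℝ) ^ m * ((2 : ℝ) ^ w * ((((2 * w : ℕ) : ℝ) * 2) *
            ((2 * w + 1) * ((k * 4 ^ t : ℕ) : ℝ) ^ (2 * w)))) := by ring
        _ ≤ (2 / 3 : ℝ) ^ m * ((2 : ℝ) ^ w *
            (2 ^ (2 * w) * (2 ^ (2 * w) * (2 ^ (6 * t)) ^ (2 * w)))) := by gcongr
        _ ≤ (2 / 3 : ℝ) ^ m * 2 ^ (32 * t * w) := by gcongr
        _ ≤ 1 := e4
    set Z := ((2 * w : ℕ) : ℝ) * (2 / 3) ^ m *
        ((2 * w + 1) * ((k * 4 ^ t : ℕ) : ℝ) ^ (2 * w)) with hZ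
    have hZ0 : 0 ≤ Z := by positivity
    nlinarith)
  exact_mod_cast hmain

/-- the arithmetic form of the trade-off -/
lemma tradeoff_nat (n w τ : ℕ) (hn : 1 ≤ n) (hw : 0 < w)
    (h : ∀ t J : ℕ, 0 < t → 0 < J → 2 ^ 23 * t * w * J ≤ 4 ^ t →
      2 ^ 11 * t ^ 4 * w * 2 ^ t ≤ n → J ≤ 12 * 2 ^ τ) :
    n ^ 2 ≤ 2 ^ 51 * (Nat.log 2 n + 1) ^ 9 * w ^ 3 * 2 ^ τ := by
  have hex : ∃ t, n < 2 ^ 11 * (t + 1) ^ 4 * w * 2 ^ (t + 1) := by
    refine ⟨n, lt_of_lt_of_le (Nat.lt_two_pow_self.trans
      (Nat.pow_lt_pow_right (by norm_num) (Nat.lt_succ_self n))) ?_⟩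
    exact Nat.le_mul_of_pos_left _ (by positivity)
  set t := Nat.find hex with htdef
  have h1 : n < 2 ^ 11 * (t + 1) ^ 4 * w * 2 ^ (t + 1) := Nat.find_spec hex
  have h2 : 0 < t → 2 ^ 11 * t ^ 4 * w * 2 ^ t ≤ n := by
    intro ht
    have := Nat.find_min hex (m := t - 1) (by omega)
    rw [Nat.sub_add_cancel ht] at this
    omega
  have h3 : t ≤ Nat.log 2 n := by
    rcases Nat.eq_zero_or_pos t with h0 | h0
    · omega
    · refine Nat.le_log_of_pow_le (by norm_num) (le_trans ?_ (h2 h0))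
      exact Nat.le_mul_of_pos_left _ (by positivity)
  have h4 : 4 ^ t ≤ 2 ^ 27 * (t + 1) * w * 2 ^ τ := by
    rcases Nat.eq_zero_or_pos t with h0 | h0
    · rw [h0, pow_zero]; exact Nat.succ_le_of_lt (by positivity)
    · by_contra hcon
      have h5 : 1 ≤ 2 ^ τ := Nat.one_le_two_pow
      have := h t (13 * 2 ^ τ) h0 (by positivity) (by
        refine le_trans ?_ (not_le.1 hcon).le
        calc 2 ^ 23 * t * w * (13 * 2 ^ τ) = (13 * 2 ^ 23) * t * w * 2 ^ τ := by ring
          _ ≤ _ := by gcongr <;> norm_num) (h2 h0)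
      omega
  calc n ^ 2 ≤ (2 ^ 11 * (t + 1) ^ 4 * w * 2 ^ (t + 1)) ^ 2 := Nat.pow_le_pow_left h1.le 2
    _ = 2 ^ 24 * (t + 1) ^ 8 * w ^ 2 * 4 ^ t := by
        rw [show (4 : ℕ) ^ t = 2 ^ t * 2 ^ t by rw [← mul_pow]; norm_num]; ring
    _ ≤ 2 ^ 24 * (t + 1) ^ 8 * w ^ 2 * (2 ^ 27 * (t + 1) * w * 2 ^ τ) := Nat.mul_le_mul_left _ h4
    _ = 2 ^ 51 * (t + 1) ^ 9 * w ^ 3 * 2 ^ τ := by ring
    _ ≤ _ := by gcongr

lemma log_two_le (n : ℕ) (hn : 1 ≤ n) : (Nat.log 2 n : ℝ) ≤ 3 / 2 * Real.log n := by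
  have h1 : ((2 ^ Nat.log 2 n : ℕ) : ℝ) ≤ n := Nat.cast_le.2 (Nat.pow_log_le_self 2 (by omega))
  push_cast at h1
  have h2 := Real.log_le_log (by positivity) h1
  rw [Real.log_pow] at h2
  have h3 := Real.log_two_gt_d9
  have h4 : (0 : ℝ) ≤ Nat.log 2 n := Nat.cast_nonneg _
  nlinarith

/-- the analytic form of the trade-off -/
lemma tradeoff_real (n s τ τ' : ℕ) (hn : 2 ^ 52 * 27 ^ 9 < n) (hs : 1 ≤ s) (hτ : τ' ≤ s)
    (hτ' : τ' ≤ τ)
    (h : n ^ 2 ≤ 2 ^ 51 * (Nat.log 2 n + 1) ^ 9 * (Nat.log 2 s + 1) ^ 3 * 2 ^ τ') :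
    Real.exp (1 / 2 ^ 24 * ((n : ℝ) ^ 2 / 2 ^ τ) ^ (1 / 3 : ℝ) / Real.log n ^ 3) ≤ s := by
  have hn' : (2 ^ 52 * 27 ^ 9 : ℝ) < n := by exact_mod_cast hn
  have hn0 : (0 : ℝ) < n := lt_trans (by norm_num) hn'
  set L := Real.log n with hL
  have hL1 : 1 ≤ L := by
    rw [hL, Real.le_log_iff_exp_le hn0]
    exact Real.exp_one_lt_d9.le.trans (le_trans (by norm_num) hn'.le)
  have h1 : ((Nat.log 2 n + 1 : ℕ) : ℝ) ≤ 3 * L := by
    have := log_two_le n (by omega)
    push_cast
    linarith
  have h2 : (n : ℝ) ^ 2 ≤ 2 ^ 51 * (3 * L) ^ 9 * ((Nat.log 2 s + 1 : ℕ) : ℝ) ^ 3 * 2 ^ τ' := by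
    calc (n : ℝ) ^ 2 ≤ 2 ^ 51 * ((Nat.log 2 n + 1 : ℕ) : ℝ) ^ 9 *
          ((Nat.log 2 s + 1 : ℕ) : ℝ) ^ 3 * 2 ^ τ' := by exact_mod_cast h
      _ ≤ _ := by gcongr
  have hs2 : 2 ≤ s := by
    by_contra hcon
    have e : s = 1 := by omega
    subst e
    have h3 : (2 : ℝ) ^ τ' ≤ 2 ^ 1 := pow_le_pow_right₀ (by norm_num) hτ
    have h4 : L ^ 9 ≤ 9 ^ 9 * n := by
      have h5 := Real.log_le_rpow_div hn0.le (by norm_num : (0 : ℝ) < 1 / 9)
      have h6 : ((n : ℝ) ^ (1 / 9 : ℝ)) ^ 9 = n := by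
        rw [← Real.rpow_natCast, ← Real.rpow_mul hn0.le]; norm_num
      calc L ^ 9 ≤ (9 * (n : ℝ) ^ (1 / 9 : ℝ)) ^ 9 :=
            pow_le_pow_left₀ (by linarith) (by linarith) 9
        _ = _ := by rw [mul_pow, h6]
    simp only [Nat.log_one_right, zero_add, Nat.cast_one, one_pow, mul_one] at h2
    have h5 : (n : ℝ) ^ 2 ≤ 2 ^ 51 * (3 ^ 9 * (9 ^ 9 * n)) * 2 ^ 1 := by
      refine h2.trans ?_
      rw [mul_pow]
      gcongr
    nlinarith
  have hs0 : (0 : ℝ) < s := by positivity
  have h3 : ((Nat.log 2 s + 1 : ℕ) : ℝ) ≤ 3 * Real.log s := by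
    have h4 := log_two_le s hs
    have h5 : 1 ≤ Nat.log 2 s := Nat.le_log_of_pow_le (by norm_num) (by simpa using hs2)
    have h6 : (1 : ℝ) ≤ Nat.log 2 s := by exact_mod_cast h5
    push_cast
    linarith
  have hls : 0 ≤ Real.log s := Real.log_nonneg (by exact_mod_cast hs)
  have hL0 : 0 < L := by linarith
  clear hn hn' h
  have h4 : (n : ℝ) ^ 2 / 2 ^ τ ≤ (2 ^ 24 * L ^ 3 * Real.log s) ^ 3 := by
    rw [div_le_iff₀ (by positivity)]
    calc (n : ℝ) ^ 2 ≤ 2 ^ 51 * (3 * L) ^ 9 * (3 * Real.log s) ^ 3 * 2 ^ τ := by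
          refine h2.trans (mul_le_mul (mul_le_mul_of_nonneg_left
            (pow_le_pow_left₀ (by positivity) h3 3) (by positivity))
            (pow_le_pow_right₀ (by norm_num) hτ') (by positivity)
            (mul_nonneg (by positivity) (pow_nonneg (by linarith) 3)))
      _ = (2 ^ 51 * 3 ^ 12) * ((L ^ 3 * Real.log s) ^ 3 * 2 ^ τ) := by ring
      _ ≤ (2 ^ 72) * ((L ^ 3 * Real.log s) ^ 3 * 2 ^ τ) :=
          mul_le_mul_of_nonneg_right (by norm_num)
            (mul_nonneg (pow_nonneg (mul_nonneg (by positivity) hls) 3) (by positivity))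
      _ = _ := by ring
  have h5 : ((n : ℝ) ^ 2 / 2 ^ τ) ^ (1 / 3 : ℝ) ≤ 2 ^ 24 * L ^ 3 * Real.log s := by
    refine (Real.rpow_le_rpow (by positivity) h4 (by norm_num)).trans (le_of_eq ?_)
    rw [← Real.rpow_natCast, ← Real.rpow_mul (mul_nonneg (by positivity) hls)]; norm_num
  rw [← Real.le_log_iff_exp_le hs0, div_le_iff₀ (by positivity)]
  nlinarith

end Pool.Agent.MP_6b3410_lc.H19
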