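import Mathlib
import Pool.Agent.MP_6b3410_lc.H19.Fm

/-!
NAND networks whose gates feed at most one gate are formulas.
-/

namespace Pool.Agent.MP_6b3410_lc.H19

open Classical Finset

lemma exists_val {ι : Type} {s : ℕ} (a b : Fin s → ι ⊕ Fin s)
    (hac : ∀ g j : Fin s, (a g = Sum.inr j → j < g) ∧ (b g = Sum.inr j → j < g)) (x : ι → Bool) :
    ∃ val : Fin s → Bool, ∀ g, val g = !(Sum.elim x val (a g) && Sum.elim x val (b g)) := by
  let F : (Fin s → Bool) → Fin s → Bool := fun val g =>
    !(Sum.elim x val (a g) && Sum.elim x val (b g))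
  have hF : ∀ u v g, (∀ j, j < g → u j = v j) → F u g = F v g := by
    intro u v g huv
    have e1 : Sum.elim x u (a g) = Sum.elim x v (a g) := by
      rcases h : a g with i | j
      · rfl
      · exact huv j ((hac g j).1 h)
    have e2 : Sum.elim x u (b g) = Sum.elim x v (b g) := by
      rcases h : b g with i | j
      · rfl
      · exact huv j ((hac g j).2 h)
    simp only [F, e1, e2]
  have : ∀ n : ℕ, ∀ g : Fin s, g.val < n →
      F^[n] (fun _ => false) g = F^[n + 1] (fun _ => false) g := by
    intro n
    induction n with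
    | zero => intro g h; omega
    | succ n ih =>
      intro g hg
      rw [Function.iterate_succ_apply' F (n + 1), Function.iterate_succ_apply' F n]
      refine hF _ _ _ fun j hj => ?_
      have := ih j (by have : j.val < g.val := hj; omega)
      rwa [Function.iterate_succ_apply' F n] at this
  exact ⟨F^[s] fun _ => false, fun g => by rw [this s g g.2, Function.iterate_succ_apply']⟩

theorem L_net {ι : Type} [Fintype ι] {s : ℕ} (a b : Fin s → ι ⊕ Fin s)
    (hac : ∀ g j : Fin s, (a g = Sum.inr j → j < g) ∧ (b g = Sum.inr j → j < g))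
    (hfo : ∀ j g g' : Fin s, (a g = Sum.inr j ∨ b g = Sum.inr j) →
      (a g' = Sum.inr j ∨ b g' = Sum.inr j) → g = g')
    (val : (ι → Bool) → Fin s → Bool)
    (hval : ∀ x g, val x g = !(Sum.elim x (val x) (a g) && Sum.elim x (val x) (b g))) (o : Fin s) :
    L (fun x => val x o) ≤ 2 * s := by
  let l : Fin s → ℕ := fun g => L fun x => val x g
  let ch : Fin s → Finset (Fin s) := fun g =>
    univ.filter fun j => a g = Sum.inr j ∨ b g = Sum.inr j
  have hin : ∀ i : ι, L (fun x : ι → Bool => x i) ≤ 1 := fun i => by simpa using L_lit i true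
  have h1 : ∀ g, l g ≤ 2 + ∑ j ∈ ch g, l j := by
    intro g
    have e1 : l g ≤ L (fun x => Sum.elim x (val x) (a g)) + L (fun x => Sum.elim x (val x) (b g)) := by
      simp only [l, hval _ g]
      exact (L_not _).trans (L_gate true _ _)
    rcases ha : a g with i | j <;> rcases hb : b g with i' | j' <;>
      simp only [ha, hb, Sum.elim_inl, Sum.elim_inr] at e1
    · have := hin i; have := hin i'; omega
    · have := hin i
      have := single_le_sum (f := l) (fun _ _ => Nat.zero_le _)
        (show j' ∈ ch g by simp [ch, hb])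
      simp only [l] at this e1 ⊢
      omega
    · have := hin i'
      have := single_le_sum (f := l) (fun _ _ => Nat.zero_le _)
        (show j ∈ ch g by simp [ch, ha])
      simp only [l] at this e1 ⊢
      omega
    · by_cases hjj : j = j'
      · have e2 : l g ≤ l j := by
          simp only [l, hval _ g, ha, hb, hjj, Sum.elim_inr, Bool.and_self]
          exact L_not _
        have := single_le_sum (f := l) (fun _ _ => Nat.zero_le _)
          (show j ∈ ch g by simp [ch, ha])
        omega
      · have := sum_le_sum_of_subset (f := l)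
          (show ({j, j'} : Finset (Fin s)) ⊆ ch g by simp [ch, ha, hb, insert_subset_iff])
        rw [sum_pair hjj] at this
        simp only [l] at this e1 ⊢
        omega
  have h2 : ∑ g ∈ Iic o, ∑ j ∈ ch g, l j ≤ ∑ j ∈ Iio o, l j := by
    rw [← sum_biUnion]
    · refine sum_le_sum_of_subset fun j hj => ?_
      obtain ⟨g, hg, hj⟩ := mem_biUnion.1 hj
      have := (mem_filter.1 hj).2.elim (hac g j).1 (hac g j).2
      exact mem_Iio.2 (this.trans_le (mem_Iic.1 hg))
    · intro g _ g' _ hne
      exact disjoint_left.2 fun j h h' => hne (hfo j g g' (mem_filter.1 h).2 (mem_filter.1 h').2)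
  have h3 := sum_le_sum fun g (_ : g ∈ Iic o) => h1 g
  rw [sum_add_distrib, sum_const, smul_eq_mul, ← Iio_insert, sum_insert (by simp)] at h3
  rw [← Iio_insert] at h2
  have h4 : (insert o (Iio o)).card ≤ s := (card_le_univ _).trans (by simp)
  change l o ≤ _
  omega

end Pool.Agent.MP_6b3410_lc.H19
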